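import Pool.Agent.H.MP_f12e57_an.Closed

/-!
The function level Bergman projection and the operator on classes in `L²` agree.
-/

open MeasureTheory Set Filter Topology
open scoped ENNReal NNReal ContDiff ComplexConjugate

namespace Pool.MPf12e57

variable {n : ℕ} {Ω : Set (Fin n → ℂ)}

theorem Bridge_inner {f g : (Fin n → ℂ) → ℂ} (hf : MemLp f 2 (volume.restrict Ω))
    (hg : MemLp g 2 (volume.restrict Ω)) {h : (Fin n → ℂ) → ℂ}
    (w : Lp ℂ 2 (volume.restrict Ω)) (hw : ⇑w =ᵐ[volume.restrict Ω] h) :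
    inner ℂ w (hf.toLp f - hg.toLp g) = ∫ z in Ω, (f z - g z) * conj (h z) := by
  rw [L2.inner_def]
  refine integral_congr_ae ?_
  filter_upwards [hw, Lp.coeFn_sub (hf.toLp f) (hg.toLp g), hf.coeFn_toLp, hg.coeFn_toLp]
    with z h1 h2 h3 h4
  rw [h2, RCLike.inner_apply, h1, Pi.sub_apply, h3, h4]

theorem Bridge_eq {f g : (Fin n → ℂ) → ℂ} (hf : MemLp f 2 (volume.restrict Ω))
    (h : IsBergmanProjection Ω f g) :
    bergmanProjection Ω (hf.toLp f) = h.1.2.toLp g := by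
  refine Submodule.eq_starProjection_of_mem_orthogonal ?_ ?_
  · exact Submodule.le_topologicalClosure _ ⟨g, h.1.1, MemLp.coeFn_toLp _⟩
  · rw [Submodule.orthogonal_closure, Submodule.mem_orthogonal]
    rintro w ⟨k, hk, hwk⟩
    rw [Bridge_inner hf h.1.2 w hwk]
    exact h.2 k ⟨hk, (Lp.memLp w).ae_eq hwk⟩

theorem Bridge_exists (hΩ : IsOpen Ω) {f : (Fin n → ℂ) → ℂ}
    (hf : MemLp f 2 (volume.restrict Ω)) :
    ∃ g, IsBergmanProjection Ω f g ∧
      ⇑(bergmanProjection Ω (hf.toLp f)) =ᵐ[volume.restrict Ω] g := by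
  have hcl : (bergmanSpace Ω).topologicalClosure = bergmanSpace Ω :=
    (bergmanSpace_isClosed hΩ).submodule_topologicalClosure_eq
  have hmem : bergmanProjection Ω (hf.toLp f) ∈ bergmanSpace Ω := by
    have h0 : bergmanProjection Ω (hf.toLp f) ∈ (bergmanSpace Ω).topologicalClosure :=
      (bergmanSpace Ω).topologicalClosure.starProjection_apply_mem (hf.toLp f)
    exact hcl ▸ h0
  obtain ⟨g, hg, hge⟩ := hmem
  have hg2 : MemLp g 2 (volume.restrict Ω) := (Lp.memLp _).ae_eq hge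
  refine ⟨g, ⟨⟨hg, hg2⟩, fun h hh => ?_⟩, hge⟩
  have hgL : bergmanProjection Ω (hf.toLp f) = hg2.toLp g :=
    Lp.ext (hge.trans hg2.coeFn_toLp.symm)
  have horth := (bergmanSpace Ω).topologicalClosure.sub_starProjection_mem_orthogonal (hf.toLp f)
  rw [Submodule.orthogonal_closure, Submodule.mem_orthogonal] at horth
  have h1 := horth (hh.2.toLp h) ⟨h, hh.1, hh.2.coeFn_toLp⟩
  change inner ℂ (hh.2.toLp h) (hf.toLp f - bergmanProjection Ω (hf.toLp f)) = 0 at h1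
  rw [hgL, Bridge_inner hf hg2 _ hh.2.coeFn_toLp] at h1
  exact h1

theorem Bridge_unique (hΩ : IsOpen Ω) {f g g' : (Fin n → ℂ) → ℂ}
    (hf : MemLp f 2 (volume.restrict Ω)) (h : IsBergmanProjection Ω f g)
    (h' : IsBergmanProjection Ω f g') : EqOn g' g Ω := by
  have h1 : h'.1.2.toLp g' = h.1.2.toLp g := by rw [← Bridge_eq hf h, ← Bridge_eq hf h']
  have h2 : g' =ᵐ[volume.restrict Ω] g := (MemLp.toLp_eq_toLp_iff _ _).1 h1
  exact Measure.eqOn_open_of_ae_eq h2 hΩ h'.1.1.continuousOn h.1.1.continuousOn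

theorem Bridge_bounded (hΩ : IsOpen Ω) (p : ℝ≥0∞) : LpBounded Ω p ↔ BoundedOnLp Ω p := by
  constructor
  · rintro ⟨C, hC⟩
    refine ⟨C, fun f hfp => ?_⟩
    obtain ⟨g, hg, hge⟩ := Bridge_exists hΩ (Lp.memLp f)
    have h1 : (Lp.memLp f).toLp f = f := Lp.toLp_coeFn f _
    rw [h1] at hge
    rw [eLpNorm_congr_ae hge]
    exact hC f g (Lp.memLp f) hfp hg
  · rintro ⟨C, hC⟩
    refine ⟨C, fun f g hf hfp hg => ?_⟩
    have h1 := hC (hf.toLp f) (hfp.ae_eq hf.coeFn_toLp.symm)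
    rw [Bridge_eq hf hg, eLpNorm_congr_ae hg.1.2.coeFn_toLp, eLpNorm_congr_ae hf.coeFn_toLp] at h1
    exact h1

end Pool.MPf12e57
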