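import Pool.Agent.H.MP_f12e57_an.Def

/-!
For an open set `Ω` the Bergman space is closed in `L²(Ω)`.
-/

open MeasureTheory Set Filter Topology
open scoped ENNReal NNReal ContDiff

namespace Pool.MPf12e57

theorem closed_rot {n : ℕ} (c : ℂ) (hc : ‖c‖ = 1) :
    MeasurePreserving (fun v : Fin n → ℂ => c • v) := by
  have h1 : MeasurePreserving (fun w : ℂ => c * w) := by
    have h2 := (rotation ⟨c, mem_sphere_zero_iff_norm.2 hc⟩).measurePreserving
    exact h2
  exact volume_preserving_pi (fun _ => h1)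

theorem closed_rot_emb {n : ℕ} (c : ℂ) (hc : ‖c‖ = 1) :
    MeasurableEmbedding (fun v : Fin n → ℂ => c • v) := by
  have h0 : c ≠ 0 := by
    rintro rfl
    simp at hc
  exact (Homeomorph.smulOfNeZero c h0).isClosedEmbedding.measurableEmbedding

/-- mean value property of a holomorphic function on a polydisc -/
theorem closed_mean {n : ℕ} {h : (Fin n → ℂ) → ℂ} {U : Set (Fin n → ℂ)} {δ : ℝ}
    (hU : IsOpen U) (hd : DifferentiableOn ℂ h U) (hB : Metric.closedBall 0 δ ⊆ U) :
    ∫ v in Metric.closedBall (0 : Fin n → ℂ) δ, h v =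
      (volume (Metric.closedBall (0 : Fin n → ℂ) δ)).toReal • h 0 := by
  set B := Metric.closedBall (0 : Fin n → ℂ) δ with hBdef
  have hmaps : ∀ (c : ℂ), ‖c‖ ≤ 1 → ∀ v ∈ B, c • v ∈ B := by
    intro c hc v hv
    rw [hBdef, mem_closedBall_zero_iff] at hv ⊢
    rw [norm_smul]
    calc ‖c‖ * ‖v‖ ≤ 1 * ‖v‖ := by gcongr
      _ ≤ δ := by rw [one_mul]; exact hv
  have hexp : ∀ t : ℝ, ‖Complex.exp (t * Complex.I)‖ = 1 := Complex.norm_exp_ofReal_mul_I
  have e1 : ∀ t : ℝ, ∫ v in B, h (Complex.exp (t * Complex.I) • v) = ∫ v in B, h v := by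
    intro t
    have h1 := (closed_rot (n := n) _ (hexp t)).setIntegral_preimage_emb
      (closed_rot_emb _ (hexp t)) h B
    have h2 : (fun v : Fin n → ℂ => Complex.exp (t * Complex.I) • v) ⁻¹' B = B := by
      ext v
      rw [mem_preimage, hBdef, mem_closedBall_zero_iff, mem_closedBall_zero_iff, norm_smul, hexp,
        one_mul]
    rw [h2] at h1
    exact h1
  have e2 : ∀ v ∈ B, ∫ t in (0 : ℝ)..(2 * Real.pi), h (Complex.exp (t * Complex.I) • v) =
      (2 * Real.pi) • h 0 := by
    intro v hv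
    have h1 : DiffContOnCl ℂ (fun l : ℂ => h (l • v)) (Metric.ball 0 |1|) := by
      apply DifferentiableOn.diffContOnCl
      rw [abs_one, closure_ball _ one_ne_zero]
      intro l hl
      rw [mem_closedBall_zero_iff] at hl
      have h3 := (hd _ (hB (hmaps l hl v hv))).differentiableAt (hU.mem_nhds (hB (hmaps l hl v hv)))
      have h4 : DifferentiableAt ℂ (fun l : ℂ => l • v) l :=
        differentiableAt_id.smul_const v
      exact (h3.comp l h4).differentiableWithinAt
    have h2 := h1.circleAverage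
    rw [Real.circleAverage_def, zero_smul] at h2
    have h3 : ∀ t : ℝ, circleMap 0 1 t = Complex.exp (t * Complex.I) := by
      intro t
      simp [circleMap]
    simp only [h3] at h2
    rw [← h2, smul_smul, mul_inv_cancel₀ (by positivity), one_smul]
  have e3 : ∫ t in (0 : ℝ)..(2 * Real.pi), ∫ v in B, h (Complex.exp (t * Complex.I) • v) =
      ∫ v in B, ∫ t in (0 : ℝ)..(2 * Real.pi), h (Complex.exp (t * Complex.I) • v) := by
    have hcont : ContinuousOn (fun q : ℝ × (Fin n → ℂ) => h (Complex.exp (q.1 * Complex.I) • q.2))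
        (Icc 0 (2 * Real.pi) ×ˢ B) := by
      refine (hd.continuousOn.mono hB).comp ?_ ?_
      · fun_prop
      · rintro ⟨t, v⟩ ⟨_, hv⟩
        exact hmaps _ (hexp t).le v hv
    have hint := hcont.integrableOn_compact (μ := (volume : Measure ℝ).prod volume)
      (isCompact_Icc.prod (isCompact_closedBall _ _))
    have hint2 : Integrable (Function.uncurry (fun (t : ℝ) (v : Fin n → ℂ) =>
        h (Complex.exp (t * Complex.I) • v)))
        (((volume : Measure ℝ).restrict (Ioc 0 (2 * Real.pi))).prod (volume.restrict B)) := by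
      rw [Measure.prod_restrict]
      exact hint.mono_set (prod_mono Ioc_subset_Icc_self (Subset.refl _))
    rw [intervalIntegral.integral_of_le (by positivity)]
    rw [integral_integral_swap hint2]
    refine integral_congr_ae (Eventually.of_forall fun v => ?_)
    change _ = ∫ t in (0 : ℝ)..(2 * Real.pi), h (Complex.exp (t * Complex.I) • v)
    rw [intervalIntegral.integral_of_le (by positivity)]
  have e4 : ∫ v in B, ∫ t in (0 : ℝ)..(2 * Real.pi), h (Complex.exp (t * Complex.I) • v) =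
      (volume B).toReal • ((2 * Real.pi) • h 0) := by
    rw [setIntegral_congr_fun Metric.isClosed_closedBall.measurableSet e2, setIntegral_const]
    rfl
  rw [e4] at e3
  simp only [e1] at e3
  rw [intervalIntegral.integral_const, sub_zero, smul_comm] at e3
  have h2pi : (2 * Real.pi) ≠ 0 := by positivity
  exact smul_right_injective ℂ h2pi e3

/-- point evaluations are bounded, uniformly on the set of the centres of polydiscs of radius `δ`
in `Ω` -/
theorem closed_eval {n : ℕ} {Ω : Set (Fin n → ℂ)} (hΩ : IsOpen Ω) {δ : ℝ} (hδ : 0 < δ) :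
    ∃ C : ℝ, 0 ≤ C ∧ ∀ (f : Lp ℂ 2 (volume.restrict Ω)) (g : (Fin n → ℂ) → ℂ),
      DifferentiableOn ℂ g Ω → ⇑f =ᵐ[volume.restrict Ω] g →
      ∀ z, Metric.closedBall z δ ⊆ Ω → ‖g z‖ ≤ C * ‖f‖ := by
  set V : ℝ := (volume (Metric.closedBall (0 : Fin n → ℂ) δ)).toReal with hV
  have hfin : volume (Metric.closedBall (0 : Fin n → ℂ) δ) ≠ ⊤ :=
    (isCompact_closedBall _ _).measure_lt_top.ne
  have hVpos : 0 < V := ENNReal.toReal_pos (Metric.measure_closedBall_pos volume 0 hδ).ne' hfin
  set R : ℝ≥0∞ := volume (Metric.closedBall (0 : Fin n → ℂ) δ) ^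
    (1 / (1 : ℝ≥0∞).toReal - 1 / (2 : ℝ≥0∞).toReal) with hR
  have hRfin : R ≠ ⊤ := by
    rw [hR]
    apply ENNReal.rpow_ne_top_of_nonneg _ hfin
    norm_num
  refine ⟨R.toReal / V, by positivity, ?_⟩
  intro f g hg hfg z hz
  have hgc : ContinuousOn g (Metric.closedBall z δ) := hg.continuousOn.mono hz
  -- mean value property
  have h1 : V • g z = ∫ w in Metric.closedBall z δ, g w := by
    have h2 := closed_mean (n := n) (h := fun v => g (z + v)) (U := (fun v => z + v) ⁻¹' Ω)
      (δ := δ) (hΩ.preimage (by fun_prop)) (hg.comp (by fun_prop) (fun v hv => hv)) (by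
        intro v hv
        apply hz
        rw [mem_closedBall_zero_iff] at hv
        rw [mem_closedBall_iff_norm, add_sub_cancel_left]
        exact hv)
    rw [add_zero] at h2
    rw [← hV] at h2
    rw [← h2]
    have h3 := (measurePreserving_add_left (volume : Measure (Fin n → ℂ)) z).setIntegral_preimage_emb
      (measurableEmbedding_addLeft z) g (Metric.closedBall z δ)
    have h4 : (fun v : Fin n → ℂ => z + v) ⁻¹' Metric.closedBall z δ =
        Metric.closedBall 0 δ := by
      ext v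
      rw [mem_preimage, mem_closedBall_iff_norm, add_sub_cancel_left, mem_closedBall_zero_iff]
    rw [h4] at h3
    exact h3
  have hmeas : AEStronglyMeasurable g (volume.restrict (Metric.closedBall z δ)) :=
    hgc.aestronglyMeasurable Metric.isClosed_closedBall.measurableSet
  have h2 : ‖V • g z‖ₑ ≤ ‖f‖ₑ * R := by
    calc ‖V • g z‖ₑ = ‖∫ w in Metric.closedBall z δ, g w‖ₑ := by rw [h1]
      _ ≤ ∫⁻ w in Metric.closedBall z δ, ‖g w‖ₑ := enorm_integral_le_lintegral_enorm _
      _ = eLpNorm g 1 (volume.restrict (Metric.closedBall z δ)) :=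
          eLpNorm_one_eq_lintegral_enorm.symm
      _ ≤ eLpNorm g 2 (volume.restrict (Metric.closedBall z δ)) *
          (volume.restrict (Metric.closedBall z δ)) Set.univ ^
            (1 / (1 : ℝ≥0∞).toReal - 1 / (2 : ℝ≥0∞).toReal) :=
          eLpNorm_le_eLpNorm_mul_rpow_measure_univ (by norm_num) hmeas
      _ = eLpNorm g 2 (volume.restrict (Metric.closedBall z δ)) * R := by
          rw [Measure.restrict_apply_univ, hR, Measure.addHaar_closedBall_center]
      _ ≤ eLpNorm g 2 (volume.restrict Ω) * R := by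
          gcongr
      _ = eLpNorm f 2 (volume.restrict Ω) * R := by rw [eLpNorm_congr_ae hfg]
      _ = ‖f‖ₑ * R := by rw [Lp.enorm_def]
  have h3 := ENNReal.toReal_mono (ENNReal.mul_ne_top enorm_ne_top hRfin) h2
  rw [ENNReal.toReal_mul, toReal_enorm, toReal_enorm, norm_smul, Real.norm_of_nonneg hVpos.le] at h3
  rw [div_mul_eq_mul_div, le_div_iff₀ hVpos, mul_comm R.toReal, mul_comm ‖g z‖]
  exact h3

/-- Cauchy estimate -/
theorem closed_cauchy {n : ℕ} {h : (Fin n → ℂ) → ℂ} {z : Fin n → ℂ} {r M : ℝ} (hr : 0 < r)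
    (hd : DifferentiableOn ℂ h (Metric.ball z r)) (hM : ∀ w ∈ Metric.ball z r, ‖h w‖ ≤ M) :
    ‖fderiv ℂ h z‖ ≤ 2 * M / r := by
  apply Complex.norm_fderiv_le_div_of_mapsTo_ball hd _ hr
  intro w hw
  rw [mem_closedBall_iff_norm]
  have h1 := hM w hw
  have h2 := hM z (Metric.mem_ball_self hr)
  have h3 := norm_sub_le (h w) (h z)
  linarith

/-- Let `f_k → f` in `L²(Ω)`, `f_k` a.e. equal to `g_k` holomorphic on `Ω`.
(1) Mean value property: if the closed ball (sup norm = polydisc) `closedBall z δ ⊆ Ω` and `g` is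
holomorphic on `Ω` then `volume(ball 0 δ) • g z = ∫ v in ball 0 δ, g (z + v)`: for every
`t` the map `v ↦ e^{it} v` preserves the volume and the ball, so the right side is
`∫ v, g (z + e^{it} v)`; average over `t ∈ [0, 2π]` and use Fubini and the mean value property of the
one variable function `l ↦ g (z + l v)`.
(2) So `‖g z‖ ≤ C_δ ‖g‖_{L²(Ω)}` (Cauchy-Schwarz), and `g_k` is uniformly Cauchy on
`closedBall a δ` if `closedBall a (2δ) ⊆ Ω`; so `g_k → g` locally uniformly on `Ω`.
(3) `g` is holomorphic: Cauchy estimates on complex lines give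
`‖fderiv ℂ (g_k - g_l) z‖ ≤ sup_{ball z δ} ‖g_k - g_l‖ / δ`, so the derivatives converge uniformly on small
balls; use `hasFDerivAt_of_tendstoUniformlyOn` (or the `UniformCauchySeqOn` form).
(4) A subsequence of `f_k` converges a.e. to `f` (`TendstoInMeasure.exists_seq_tendsto_ae`), so `f = g` a.e. -/
theorem bergmanSpace_isClosed {n : ℕ} {Ω : Set (Fin n → ℂ)} (hΩ : IsOpen Ω) :
    IsClosed (bergmanSpace Ω : Set (Lp ℂ 2 (volume.restrict Ω))) := by
  apply IsSeqClosed.isClosed
  intro F f hF hlim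
  have hF' : ∀ k, ∃ g : (Fin n → ℂ) → ℂ, DifferentiableOn ℂ g Ω ∧
      ⇑(F k) =ᵐ[volume.restrict Ω] g := hF
  choose G hG hFG using hF'
  have hcau : CauchySeq F := hlim.cauchySeq
  have hdiff : ∀ k l, ⇑(F k - F l) =ᵐ[volume.restrict Ω] G k - G l := by
    intro k l
    exact (Lp.coeFn_sub (F k) (F l)).trans ((hFG k).sub (hFG l))
  -- uniform Cauchy estimate
  have hest : ∀ δ : ℝ, 0 < δ → ∃ C : ℝ, 0 ≤ C ∧ ∀ k l z, Metric.closedBall z δ ⊆ Ω →
      ‖G k z - G l z‖ ≤ C * ‖F k - F l‖ := by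
    intro δ hδ
    obtain ⟨C, hC0, hC⟩ := closed_eval hΩ hδ
    refine ⟨C, hC0, fun k l z hz => ?_⟩
    exact hC (F k - F l) (G k - G l) ((hG k).sub (hG l)) (hdiff k l) z hz
  have hsmall : ∀ C : ℝ, 0 ≤ C → ∀ ε > 0, ∃ N, ∀ k ≥ N, ∀ l ≥ N, C * ‖F k - F l‖ < ε := by
    intro C hC ε hε
    obtain ⟨N, hN⟩ := Metric.cauchySeq_iff.1 hcau (ε / (C + 1)) (by positivity)
    refine ⟨N, fun k hk l hl => ?_⟩
    have h1 := hN k hk l hl
    rw [dist_eq_norm, lt_div_iff₀ (by positivity)] at h1
    have h2 : 0 ≤ ‖F k - F l‖ := norm_nonneg _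
    nlinarith
  have hptw : ∀ z ∈ Ω, ∃ y, Tendsto (fun k => G k z) atTop (𝓝 y) := by
    intro z hz
    apply cauchySeq_tendsto_of_complete
    obtain ⟨δ, hδ, hδz⟩ := Metric.nhds_basis_closedBall.mem_iff.1 (hΩ.mem_nhds hz)
    obtain ⟨C, hC0, hC⟩ := hest δ hδ
    rw [Metric.cauchySeq_iff]
    intro ε hε
    obtain ⟨N, hN⟩ := hsmall C hC0 ε hε
    refine ⟨N, fun k hk l hl => ?_⟩
    rw [dist_eq_norm]
    exact (hC k l z hδz).trans_lt (hN k hk l hl)
  classical
  set g : (Fin n → ℂ) → ℂ := fun z => if hz : z ∈ Ω then (hptw z hz).choose else 0 with hg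
  have hGg : ∀ z ∈ Ω, Tendsto (fun k => G k z) atTop (𝓝 (g z)) := by
    intro z hz
    have h1 : g z = (hptw z hz).choose := by rw [hg]; simp only [hz, dif_pos]
    rw [h1]
    exact (hptw z hz).choose_spec
  refine ⟨g, ?_, ?_⟩
  · intro a ha
    obtain ⟨δ, hδ, hδa⟩ := Metric.nhds_basis_closedBall.mem_iff.1 (hΩ.mem_nhds ha)
    set r := δ / 3 with hr
    have hr0 : 0 < r := by positivity
    obtain ⟨C, hC0, hC⟩ := hest r hr0
    have hsub : ∀ z ∈ Metric.ball a r, ∀ w ∈ Metric.ball z r, Metric.closedBall w r ⊆ Ω := by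
      intro z hz w hw u hu
      apply hδa
      rw [Metric.mem_closedBall] at hu ⊢
      rw [Metric.mem_ball] at hz hw
      have h1 := dist_triangle u w a
      have h2 := dist_triangle w z a
      linarith
    have hballΩ : ∀ z ∈ Metric.ball a r, Metric.ball z r ⊆ Ω := fun z hz w hw =>
      hsub z hz w hw (Metric.mem_closedBall_self hr0.le)
    have hdG : ∀ k, ∀ z ∈ Metric.ball a r, DifferentiableAt ℂ (G k) z := by
      intro k z hz
      have hzΩ := hballΩ z hz (Metric.mem_ball_self hr0)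
      exact (hG k z hzΩ).differentiableAt (hΩ.mem_nhds hzΩ)
    have hder : ∀ k l, ∀ z ∈ Metric.ball a r,
        ‖fderiv ℂ (G k) z - fderiv ℂ (G l) z‖ ≤ (2 * C / r) * ‖F k - F l‖ := by
      intro k l z hz
      rw [← fderiv_sub (hdG k z hz) (hdG l z hz)]
      have h1 := closed_cauchy (h := G k - G l) (z := z) (r := r) (M := C * ‖F k - F l‖) hr0
        (((hG k).sub (hG l)).mono (hballΩ z hz)) (fun w hw => hC k l w (hsub z hz w hw))
      refine h1.trans (le_of_eq ?_)
      ring
    have hder2 : UniformCauchySeqOn (fun k => fderiv ℂ (G k)) atTop (Metric.ball a r) := by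
      rw [Metric.uniformCauchySeqOn_iff]
      intro ε hε
      obtain ⟨N, hN⟩ := hsmall (2 * C / r) (by positivity) ε hε
      refine ⟨N, fun k hk l hl z hz => ?_⟩
      rw [dist_eq_norm]
      exact (hder k l z hz).trans_lt (hN k hk l hl)
    have hlim' : ∀ z ∈ Metric.ball a r, ∃ y, Tendsto (fun k => fderiv ℂ (G k) z) atTop (𝓝 y) :=
      fun z hz => cauchySeq_tendsto_of_complete (hder2.cauchySeq hz)
    set g' : (Fin n → ℂ) → ((Fin n → ℂ) →L[ℂ] ℂ) := fun z =>
      if hz : z ∈ Metric.ball a r then (hlim' z hz).choose else 0 with hg'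
    have hGg' : ∀ z ∈ Metric.ball a r, Tendsto (fun k => fderiv ℂ (G k) z) atTop (𝓝 (g' z)) := by
      intro z hz
      have h1 : g' z = (hlim' z hz).choose := by rw [hg']; simp only [hz, dif_pos]
      rw [h1]
      exact (hlim' z hz).choose_spec
    have hfin := hasFDerivAt_of_tendstoUniformlyOn Metric.isOpen_ball
      (hder2.tendstoUniformlyOn_of_tendsto hGg') (fun k z hz => (hdG k z hz).hasFDerivAt)
      (fun z hz => hGg z (hballΩ z hz (Metric.mem_ball_self hr0))) (Metric.mem_ball_self hr0)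
    exact hfin.differentiableAt.differentiableWithinAt
  · obtain ⟨ns, hns, hae⟩ := (tendstoInMeasure_of_tendsto_Lp hlim).exists_seq_tendsto_ae
    have hall : ∀ᵐ z ∂(volume.restrict Ω), ∀ k, F k z = G k z := ae_all_iff.2 hFG
    have hΩae : ∀ᵐ z ∂(volume.restrict Ω), z ∈ Ω := ae_restrict_mem hΩ.measurableSet
    filter_upwards [hae, hall, hΩae] with z h1 h2 h3
    have h4 : Tendsto (fun i => F (ns i) z) atTop (𝓝 (g z)) := by
      have h5 := (hGg z h3).comp hns.tendsto_atTop
      refine h5.congr fun i => ?_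
      exact (h2 (ns i)).symm
    exact tendsto_nhds_unique h1 h4

end Pool.MPf12e57
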