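import Pool.Agent.H.MP_f12e57_an.Stmt

/-!
The Bergman projection on the level of classes in `L²`, and the domain `Omega m ⊆ ℂ^(m+3)`.
-/

open MeasureTheory Set Filter Topology
open scoped ENNReal NNReal ContDiff

namespace Pool.MPf12e57

/-- The Bergman space `A²(Ω)` as a subspace of `L²(Ω)` (Lebesgue measure of `ℂⁿ`): the classes
which have a representative that is holomorphic (complex differentiable) on `Ω`. -/
def bergmanSpace {n : ℕ} (Ω : Set (Fin n → ℂ)) : Submodule ℂ (Lp ℂ 2 (volume.restrict Ω)) where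
  carrier := {f | ∃ g : (Fin n → ℂ) → ℂ, DifferentiableOn ℂ g Ω ∧ ⇑f =ᵐ[volume.restrict Ω] g}
  zero_mem' := ⟨0, differentiableOn_const 0, Lp.coeFn_zero _ _ _⟩
  add_mem' := by
    rintro f₁ f₂ ⟨g₁, h₁, e₁⟩ ⟨g₂, h₂, e₂⟩
    exact ⟨g₁ + g₂, h₁.add h₂, (Lp.coeFn_add f₁ f₂).trans (e₁.add e₂)⟩
  smul_mem' := by
    rintro c f ⟨g, h, e⟩
    exact ⟨c • g, h.const_smul c, (Lp.coeFn_smul c f).trans (e.const_smul c)⟩

/-- The Bergman projection: the orthogonal projection of `L²(Ω)` onto (the closure of) `A²(Ω)`.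
For open `Ω` the space `A²(Ω)` is closed (see `bergmanSpace_isClosed`), so this is the orthogonal
projection onto `A²(Ω)`. -/
noncomputable def bergmanProjection {n : ℕ} (Ω : Set (Fin n → ℂ)) :
    Lp ℂ 2 (volume.restrict Ω) →L[ℂ] Lp ℂ 2 (volume.restrict Ω) :=
  (bergmanSpace Ω).topologicalClosure.starProjection

/-- The Bergman projection extends to a bounded operator of `L^p(Ω)`. -/
def BoundedOnLp {n : ℕ} (Ω : Set (Fin n → ℂ)) (p : ℝ≥0∞) : Prop :=
  ∃ C : ℝ≥0, ∀ f : Lp ℂ 2 (volume.restrict Ω), MemLp f p (volume.restrict Ω) →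
    eLpNorm (bergmanProjection Ω f) p (volume.restrict Ω)
      ≤ C * eLpNorm f p (volume.restrict Ω)

/-- The `L^p` mapping interval `I_Ω`. -/
def lpInterval {n : ℕ} (Ω : Set (Fin n → ℂ)) : Set ℝ :=
  {p | 1 < p ∧ BoundedOnLp Ω (ENNReal.ofReal p)}

/-- The polynomial defining function of the domain. -/
noncomputable def rho (m : ℕ) (z : Fin (m + 3) → ℂ) : ℝ :=
  ‖z 0‖ ^ 4 * ‖z 1‖ ^ 2 + ‖z 0‖ ^ 8 + ‖z 1‖ ^ 8 + (∑ j : Fin (m + 1), ‖z j.succ.succ‖ ^ 2) - 1

/-- The domain `{|z₁|⁴|z₂|² + |z₁|⁸ + |z₂|⁸ + |z₃|² + ⋯ + |zₙ|² < 1}` of `ℂⁿ`, `n = m + 3`. -/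
def Omega (m : ℕ) : Set (Fin (m + 3) → ℂ) := {z | rho m z < 0}

/-- The monomial `z₁ z₃^c`. -/
def mono (m c : ℕ) (z : Fin (m + 3) → ℂ) : ℂ := z 0 * z 2 ^ c

/-- The exponent of the monomial `z₁ z₃^c`. -/
def alpha (m c : ℕ) : Fin (m + 3) → ℕ := fun j => if j = 0 then 1 else if j = 2 then c else 0

theorem continuous_rho (m : ℕ) : Continuous (rho m) := by
  unfold rho; fun_prop

theorem isOpen_Omega (m : ℕ) : IsOpen (Omega m) :=
  isOpen_lt (continuous_rho m) continuous_const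

theorem measurableSet_Omega (m : ℕ) : MeasurableSet (Omega m) := (isOpen_Omega m).measurableSet

theorem rho_mono {m : ℕ} {z w : Fin (m + 3) → ℂ} (h : ∀ j, ‖w j‖ ≤ ‖z j‖) : rho m w ≤ rho m z := by
  unfold rho
  have h0 := h 0
  have h1 := h 1
  gcongr
  exact h _

/-- `Omega m` is complete Reinhardt. -/
theorem Omega_reinhardt {m : ℕ} {z w : Fin (m + 3) → ℂ} (hz : z ∈ Omega m)
    (h : ∀ j, ‖w j‖ ≤ ‖z j‖) : w ∈ Omega m :=
  lt_of_le_of_lt (rho_mono h) hz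

theorem norm_lt_one_of_mem {m : ℕ} {z : Fin (m + 3) → ℂ} (hz : z ∈ Omega m) (j : Fin (m + 3)) :
    ‖z j‖ < 1 := by
  have hz' : rho m z < 0 := hz
  unfold rho at hz'
  have hs : ∀ j : Fin (m + 1), ‖z j.succ.succ‖ ^ 2 ≤ ∑ j : Fin (m + 1), ‖z j.succ.succ‖ ^ 2 :=
    fun j => Finset.single_le_sum (f := fun j : Fin (m + 1) => ‖z j.succ.succ‖ ^ 2)
      (fun i _ => by positivity) (Finset.mem_univ j)
  have hs0 : 0 ≤ ∑ j : Fin (m + 1), ‖z j.succ.succ‖ ^ 2 :=
    Finset.sum_nonneg fun i _ => by positivity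
  have ha : 0 ≤ ‖z 0‖ ^ 4 * ‖z 1‖ ^ 2 := by positivity
  have hb : 0 ≤ ‖z 0‖ ^ 8 := by positivity
  have hc : 0 ≤ ‖z 1‖ ^ 8 := by positivity
  refine Fin.cases ?_ (fun i => Fin.cases ?_ (fun k => ?_) i) j
  · by_contra hcon
    have := one_le_pow₀ (n := 8) (not_lt.1 hcon)
    linarith
  · by_contra hcon
    have : 1 ≤ ‖z 1‖ ^ 8 := one_le_pow₀ (n := 8) (not_lt.1 hcon)
    linarith
  · by_contra hcon
    have h1 := one_le_pow₀ (n := 2) (not_lt.1 hcon)
    have h2 := hs k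
    linarith

theorem isBounded_Omega (m : ℕ) : Bornology.IsBounded (Omega m) := by
  refine (Metric.isBounded_ball (x := (0 : Fin (m + 3) → ℂ)) (r := 1)).subset fun z hz => ?_
  rw [mem_ball_zero_iff, pi_norm_lt_iff one_pos]
  exact norm_lt_one_of_mem hz

theorem volume_Omega_lt_top (m : ℕ) : volume (Omega m) < ⊤ := (isBounded_Omega m).measure_lt_top

theorem continuous_mono (m c : ℕ) : Continuous (mono m c) := by
  unfold mono; fun_prop

theorem differentiable_mono (m c : ℕ) : Differentiable ℂ (mono m c) := by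
  unfold mono; fun_prop

theorem norm_mono (m c : ℕ) (z : Fin (m + 3) → ℂ) : ‖mono m c z‖ = ‖z 0‖ * ‖z 2‖ ^ c := by
  simp [mono]

theorem prod_alpha (m c : ℕ) (z : Fin (m + 3) → ℂ) : ∏ j, z j ^ alpha m c j = mono m c z := by
  have h02 : (2 : Fin (m + 3)) ≠ 0 := by
    intro h
    have h2 := congrArg Fin.val h
    have h3 : 2 % (m + 3) = 2 := Nat.mod_eq_of_lt (by omega)
    simp [h3] at h2
  rw [← Finset.prod_subset (Finset.subset_univ {0, 2}), Finset.prod_pair h02.symm]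
  · simp [alpha, mono, h02]
  · intro x _ hx
    simp only [Finset.mem_insert, Finset.mem_singleton, not_or] at hx
    simp [alpha, hx.1, hx.2]

end Pool.MPf12e57
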