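import Pool.Agent.H.MP_f12e57_an.Def

/-!
The D'Angelo type of every boundary point is at most `8`.
-/

open MeasureTheory Set Filter Topology
open scoped ENNReal NNReal ContDiff

namespace Pool.MPf12e57

/-- A holomorphic germ which vanishes at the origin has a nonnegative real part somewhere on every
small circle. -/
theorem ftype_circle {L : ℂ → ℂ} (hL : AnalyticAt ℂ L 0) (h0 : L 0 = 0) :
    ∃ ε > 0, ∀ r : ℝ, 0 < r → r < ε → ∃ ζ : ℂ, ‖ζ‖ = r ∧ 0 ≤ (L ζ).re := by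
  obtain ⟨ε, hε, hball⟩ := Metric.eventually_nhds_iff_ball.1 hL.eventually_analyticAt
  refine ⟨ε, hε, fun r hr hrε => ?_⟩
  by_contra hcon
  push Not at hcon
  have hrr : |r| = r := abs_of_pos hr
  have hsub : Metric.closedBall (0 : ℂ) |r| ⊆ Metric.ball 0 ε := by
    rw [hrr]
    exact Metric.closedBall_subset_ball hrε
  have hd : DiffContOnCl ℂ L (Metric.ball 0 |r|) := by
    apply DifferentiableOn.diffContOnCl
    intro z hz
    exact (hball z (hsub (Metric.closure_ball_subset_closedBall hz))).differentiableAt.differentiableWithinAt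
  have hc : ContinuousOn L (Metric.sphere 0 |r|) := by
    intro z hz
    exact (hball z (hsub (Metric.sphere_subset_closedBall hz))).continuousAt.continuousWithinAt
  have h1 := hd.circleAverage
  have hint : CircleIntegrable L 0 r := ContinuousOn.circleIntegrable' hc
  have h2 := Complex.reCLM.circleAverage_comp_comm hint
  rw [h1, h0, map_zero] at h2
  have hne : (Metric.sphere (0 : ℂ) |r|).Nonempty := ⟨(r : ℂ), by simp⟩
  obtain ⟨ζ, hζ, hmax⟩ := (isCompact_sphere (0 : ℂ) |r|).exists_isMaxOn hne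
    (Complex.continuous_re.comp_continuousOn hc)
  have hint2 : CircleIntegrable (Complex.reCLM ∘ L) 0 r :=
    ContinuousOn.circleIntegrable' (Complex.continuous_re.comp_continuousOn hc)
  have h3 : Real.circleAverage (Complex.reCLM ∘ L) 0 r ≤ (L ζ).re :=
    Real.circleAverage_mono_on_of_le_circle hint2 fun x hx => hmax hx
  have h4 : (L ζ).re < 0 := hcon ζ (by
    rw [mem_sphere_zero_iff_norm, hrr] at hζ
    exact hζ)
  linarith

/-- Lower bounds for the components. -/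
theorem ftype_lower {u g : ℂ → ℂ} {a : ℂ} {N : ℕ} (hu : ContinuousAt u 0) (hu0 : u 0 = a)
    (hg : ContinuousAt g 0) (hg0 : g 0 ≠ 0) (h : ∀ᶠ ζ in 𝓝 (0 : ℂ), u ζ - a = ζ ^ N * g ζ) :
    ∃ c > 0, ∀ᶠ ζ in 𝓝 (0 : ℂ), c * ‖ζ‖ ^ (4 * N) ≤ ‖u ζ - a‖ ∧
      c * ‖ζ‖ ^ (4 * N) ≤ ‖u ζ ^ 4 - a ^ 4‖ := by
  have hgn : 0 < ‖g 0‖ := norm_pos_iff.2 hg0
  set d : ℝ := ‖g 0‖ / 2 with hd
  have hdpos : 0 < d := by positivity
  have hg1 : ∀ᶠ ζ in 𝓝 (0 : ℂ), d < ‖g ζ‖ := by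
    have h1 : Tendsto (fun ζ => ‖g ζ‖) (𝓝 0) (𝓝 ‖g 0‖) := hg.norm
    exact h1.eventually (lt_mem_nhds (by rw [hd]; linarith))
  have hz1 : ∀ᶠ ζ in 𝓝 (0 : ℂ), ‖ζ‖ ≤ 1 := by
    have h1 : Tendsto (fun ζ : ℂ => ‖ζ‖) (𝓝 0) (𝓝 0) := by
      simpa using (continuous_norm (E := ℂ)).tendsto 0
    exact h1.eventually (ge_mem_nhds one_pos)
  have hpow : ∀ ζ : ℂ, ‖ζ‖ ≤ 1 → ‖ζ‖ ^ (4 * N) ≤ ‖ζ‖ ^ N := fun ζ hζ =>
    pow_le_pow_of_le_one (norm_nonneg _) hζ (by omega)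
  by_cases ha : a = 0
  · refine ⟨min d (d ^ 4), by positivity, ?_⟩
    filter_upwards [hg1, hz1, h] with ζ h1 h2 h3
    have h4 := hpow ζ h2
    have h5 : 0 ≤ ‖ζ‖ ^ (4 * N) := by positivity
    constructor
    · rw [h3, norm_mul, norm_pow]
      calc min d (d ^ 4) * ‖ζ‖ ^ (4 * N) ≤ d * ‖ζ‖ ^ N :=
            mul_le_mul (min_le_left _ _) h4 h5 hdpos.le
        _ ≤ ‖g ζ‖ * ‖ζ‖ ^ N := by gcongr
        _ = ‖ζ‖ ^ N * ‖g ζ‖ := mul_comm _ _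
    · rw [ha, sub_zero] at h3
      rw [ha, h3, zero_pow (by norm_num), sub_zero, norm_pow, norm_mul, norm_pow, mul_pow, ← pow_mul,
        mul_comm N 4]
      calc min d (d ^ 4) * ‖ζ‖ ^ (4 * N) ≤ d ^ 4 * ‖ζ‖ ^ (4 * N) := by
            gcongr
            exact min_le_right _ _
        _ ≤ ‖g ζ‖ ^ 4 * ‖ζ‖ ^ (4 * N) := by gcongr
        _ = ‖ζ‖ ^ (4 * N) * ‖g ζ‖ ^ 4 := mul_comm _ _
  · set q : ℂ → ℂ := fun ζ => u ζ ^ 3 + u ζ ^ 2 * a + u ζ * a ^ 2 + a ^ 3 with hq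
    have hqc : ContinuousAt q 0 := by
      rw [hq]
      fun_prop
    have hq0 : q 0 = 4 * a ^ 3 := by
      rw [hq]
      simp only [hu0]
      ring
    have hqn : 0 < ‖q 0‖ := by
      rw [hq0]
      simp [ha]
    set e : ℝ := ‖q 0‖ / 2 with he
    have hepos : 0 < e := by positivity
    have hq1 : ∀ᶠ ζ in 𝓝 (0 : ℂ), e < ‖q ζ‖ := by
      have h1 : Tendsto (fun ζ => ‖q ζ‖) (𝓝 0) (𝓝 ‖q 0‖) := hqc.norm
      exact h1.eventually (lt_mem_nhds (by rw [he]; linarith))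
    refine ⟨min d (d * e), by positivity, ?_⟩
    filter_upwards [hg1, hz1, h, hq1] with ζ h1 h2 h3 h6
    have h4 := hpow ζ h2
    have h5 : 0 ≤ ‖ζ‖ ^ (4 * N) := by positivity
    constructor
    · rw [h3, norm_mul, norm_pow]
      calc min d (d * e) * ‖ζ‖ ^ (4 * N) ≤ d * ‖ζ‖ ^ N :=
            mul_le_mul (min_le_left _ _) h4 h5 hdpos.le
        _ ≤ ‖g ζ‖ * ‖ζ‖ ^ N := by gcongr
        _ = ‖ζ‖ ^ N * ‖g ζ‖ := mul_comm _ _
    · have h7 : u ζ ^ 4 - a ^ 4 = (u ζ - a) * q ζ := by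
        rw [hq]
        ring
      rw [h7, h3, norm_mul, norm_mul, norm_pow]
      calc min d (d * e) * ‖ζ‖ ^ (4 * N) ≤ (d * e) * ‖ζ‖ ^ N :=
            mul_le_mul (min_le_right _ _) h4 h5 (by positivity)
        _ ≤ (‖g ζ‖ * ‖q ζ‖) * ‖ζ‖ ^ N := by gcongr
        _ = ‖ζ‖ ^ N * ‖g ζ‖ * ‖q ζ‖ := by ring

theorem ftype_id (a b : ℂ) :
    ‖b‖ ^ 2 = ‖a‖ ^ 2 + (2 * (starRingEnd ℂ) a * (b - a)).re + ‖b - a‖ ^ 2 := by
  rw [Complex.sq_norm, Complex.sq_norm, Complex.sq_norm, Complex.normSq_apply, Complex.normSq_apply,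
    Complex.normSq_apply]
  simp
  ring

/-- The linear part. -/
noncomputable def ftypeL (m : ℕ) (p z : Fin (m + 3) → ℂ) : ℂ :=
  2 * (starRingEnd ℂ) (p 0 ^ 2 * p 1) * (z 0 ^ 2 * z 1 - p 0 ^ 2 * p 1)
    + 2 * (starRingEnd ℂ) (p 0 ^ 4) * (z 0 ^ 4 - p 0 ^ 4)
    + 2 * (starRingEnd ℂ) (p 1 ^ 4) * (z 1 ^ 4 - p 1 ^ 4)
    + ∑ j : Fin (m + 1), 2 * (starRingEnd ℂ) (p j.succ.succ) * (z j.succ.succ - p j.succ.succ)

theorem ftype_rho (m : ℕ) (p z : Fin (m + 3) → ℂ) (hp : rho m p = 0) :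
    rho m z = (ftypeL m p z).re + (‖z 0 ^ 2 * z 1 - p 0 ^ 2 * p 1‖ ^ 2 + ‖z 0 ^ 4 - p 0 ^ 4‖ ^ 2
      + ‖z 1 ^ 4 - p 1 ^ 4‖ ^ 2 + ∑ j : Fin (m + 1), ‖z j.succ.succ - p j.succ.succ‖ ^ 2) := by
  have e1 : ∀ w : Fin (m + 3) → ℂ, rho m w = ‖w 0 ^ 2 * w 1‖ ^ 2 + ‖w 0 ^ 4‖ ^ 2 + ‖w 1 ^ 4‖ ^ 2
      + (∑ j : Fin (m + 1), ‖w j.succ.succ‖ ^ 2) - 1 := by
    intro w
    unfold rho
    rw [norm_mul, norm_pow, norm_pow, norm_pow]
    ring
  have e2 : ∑ j : Fin (m + 1), ‖z j.succ.succ‖ ^ 2 = ∑ j : Fin (m + 1), ‖p j.succ.succ‖ ^ 2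
      + (∑ j : Fin (m + 1), 2 * (starRingEnd ℂ) (p j.succ.succ) *
        (z j.succ.succ - p j.succ.succ)).re
      + ∑ j : Fin (m + 1), ‖z j.succ.succ - p j.succ.succ‖ ^ 2 := by
    rw [Complex.re_sum, ← Finset.sum_add_distrib, ← Finset.sum_add_distrib]
    exact Finset.sum_congr rfl fun j _ => ftype_id _ _
  rw [e1] at hp
  rw [e1, e2, ftype_id (p 0 ^ 2 * p 1) (z 0 ^ 2 * z 1), ftype_id (p 0 ^ 4) (z 0 ^ 4),
    ftype_id (p 1 ^ 4) (z 1 ^ 4)]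
  unfold ftypeL
  rw [Complex.add_re, Complex.add_re, Complex.add_re]
  linarith

/-- Put `F z = (z 0 ^ 2 * z 1, z 0 ^ 4, z 1 ^ 4, z j.succ.succ (j : Fin (m+1)))`, so that
`rho m z = ‖F z‖^2 - 1` (sum of squares), and `G ζ = F (γ ζ) - F p`, an analytic germ with `G 0 = 0`.
Since `‖F p‖^2 = 1`, `rho m (γ ζ) = 2 Re ⟨G ζ, F p⟩ + ‖G ζ‖^2`, and the circle mean over `‖ζ‖ = r`
(r small) of the first summand is `0` (mean value property). So `mean_r (rho ∘ γ) = mean_r ‖G‖^2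
≥ mean_r ‖G_i‖^2` for every component `i`.
Choose a coordinate `j` with `analyticOrderAt (γ_j - p_j) 0 = ν := analyticOrderAt (γ - p) 0` (the order of a
vector valued germ is the minimum of the orders of the components; only `≤` some component's
order is needed in the form: there is `j` with `analyticOrderAt (γ_j - p_j) ≤ ν`; `ν < ⊤` since
`γ` is not locally constant). Take the component `G_i` = `γ_j - p_j` if `j ≥ 2`, and
`γ_j ^ 4 - p_j ^ 4 = (γ_j - p_j) (γ_j^3 + ⋯ + p_j^3)` if `j ∈ {0, 1}`, whose order `M` is `≤ 4 ν`.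
By `AnalyticAt.analyticOrderAt_eq_natCast`: `G_i ζ = ζ^M h ζ`, `h 0 ≠ 0`, so `‖G_i ζ‖ ≥ c ‖ζ‖^M` near `0` and
`mean_r ‖G_i‖^2 ≥ c² r^{2M}`. If `rho ∘ γ = O(‖ζ‖^k)` then `c² r^{2M} ≤ C r^k` for all small `r`, so
`k ≤ 2 M ≤ 8 ν`. -/
theorem typeAtMost_rho (m : ℕ) (p : Fin (m + 3) → ℂ) (hp : rho m p = 0) :
    TypeAtMost (rho m) p 8 := by
  intro γ hγ hγ0 _ k hk
  have hγi : ∀ i, AnalyticAt ℂ (fun ζ => γ ζ i) 0 := analyticAt_pi_iff.1 hγ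
  have hsub : AnalyticAt ℂ (fun ζ => γ ζ - p) 0 := hγ.sub analyticAt_const
  obtain hν | ⟨N, hN⟩ : analyticOrderAt (fun ζ => γ ζ - p) 0 = ⊤ ∨
      ∃ N : ℕ, analyticOrderAt (fun ζ => γ ζ - p) 0 = N := by
    cases h : analyticOrderAt (fun ζ => γ ζ - p) 0 with
    | top => left; rfl
    | coe N => right; exact ⟨N, rfl⟩
  · rw [hν]
    have : ((8 : ℕ) : ℕ∞) * ⊤ = ⊤ := by
      rw [ENat.mul_top]
      norm_num
    rw [this]
    exact le_top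
  rw [hN]
  obtain ⟨g, hg, hg0, hgz⟩ := hsub.analyticOrderAt_eq_natCast.1 hN
  obtain ⟨j, hj⟩ : ∃ j, g 0 j ≠ 0 := by
    by_contra hcon
    push Not at hcon
    exact hg0 (funext hcon)
  have hgj : ContinuousAt (fun ζ => g ζ j) 0 := (analyticAt_pi_iff.1 hg j).continuousAt
  have hz : ∀ᶠ ζ in 𝓝 (0 : ℂ), γ ζ j - p j = ζ ^ N * g ζ j := by
    filter_upwards [hgz] with ζ h
    have h1 := congrFun h j
    rw [sub_zero] at h1
    exact h1
  obtain ⟨c, hc, hlow⟩ := ftype_lower (u := fun ζ => γ ζ j) (g := fun ζ => g ζ j) (a := p j)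
    (hγi j).continuousAt (congrFun hγ0 j) hgj hj hz
  have hge : ∀ᶠ ζ in 𝓝 (0 : ℂ), (ftypeL m p (γ ζ)).re + (c * ‖ζ‖ ^ (4 * N)) ^ 2
      ≤ rho m (γ ζ) := by
    filter_upwards [hlow] with ζ ⟨h1, h2⟩
    rw [ftype_rho m p (γ ζ) hp]
    have hs : ∀ i : Fin (m + 1), ‖γ ζ i.succ.succ - p i.succ.succ‖ ^ 2
        ≤ ∑ j : Fin (m + 1), ‖γ ζ j.succ.succ - p j.succ.succ‖ ^ 2 := fun i =>
      Finset.single_le_sum (f := fun j : Fin (m + 1) => ‖γ ζ j.succ.succ - p j.succ.succ‖ ^ 2)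
        (fun i _ => by positivity) (Finset.mem_univ i)
    have hs0 : 0 ≤ ∑ j : Fin (m + 1), ‖γ ζ j.succ.succ - p j.succ.succ‖ ^ 2 :=
      Finset.sum_nonneg fun i _ => by positivity
    have hc0 : 0 ≤ c * ‖ζ‖ ^ (4 * N) := by positivity
    have hb1 : (c * ‖ζ‖ ^ (4 * N)) ^ 2 ≤ ‖γ ζ j - p j‖ ^ 2 := pow_le_pow_left₀ hc0 h1 2
    have hb2 : (c * ‖ζ‖ ^ (4 * N)) ^ 2 ≤ ‖γ ζ j ^ 4 - p j ^ 4‖ ^ 2 := pow_le_pow_left₀ hc0 h2 2
    have ha1 : 0 ≤ ‖γ ζ 0 ^ 2 * γ ζ 1 - p 0 ^ 2 * p 1‖ ^ 2 := by positivity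
    have ha2 : 0 ≤ ‖γ ζ 0 ^ 4 - p 0 ^ 4‖ ^ 2 := by positivity
    have ha3 : 0 ≤ ‖γ ζ 1 ^ 4 - p 1 ^ 4‖ ^ 2 := by positivity
    clear hlow hz hgj hj h1 h2
    revert hb1 hb2
    refine Fin.cases ?_ (fun i => Fin.cases ?_ (fun l => ?_) i) j
    · intro _ hb2
      linarith
    · intro _ hb2
      have hb3 : (c * ‖ζ‖ ^ (4 * N)) ^ 2 ≤ ‖γ ζ 1 ^ 4 - p 1 ^ 4‖ ^ 2 := hb2
      linarith
    · intro hb1 _
      have := hs l
      linarith
  have hLan : AnalyticAt ℂ (fun ζ => ftypeL m p (γ ζ)) 0 := by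
    unfold ftypeL
    have h0 := hγi 0
    have h1 := hγi 1
    have hsum : AnalyticAt ℂ (fun ζ => ∑ j : Fin (m + 1), 2 * (starRingEnd ℂ) (p j.succ.succ) *
        (γ ζ j.succ.succ - p j.succ.succ)) 0 := by
      apply Finset.analyticAt_fun_sum
      intro i _
      have := hγi i.succ.succ
      fun_prop
    fun_prop
  have hL0 : ftypeL m p (γ 0) = 0 := by
    rw [hγ0]
    unfold ftypeL
    simp
  obtain ⟨ε, hε, hcirc⟩ := ftype_circle hLan hL0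
  obtain ⟨C, hC⟩ := hk.bound
  obtain ⟨δ, hδ, hball⟩ := Metric.eventually_nhds_iff_ball.1 (hge.and hC)
  -- the inequality for small radii
  have hfin : ∀ r : ℝ, 0 < r → r < min ε δ → c ^ 2 * r ^ (8 * N) ≤ C * r ^ k := by
    intro r hr hrm
    obtain ⟨ζ, hζ, hre⟩ := hcirc r hr (lt_of_lt_of_le hrm (min_le_left _ _))
    have hmem : ζ ∈ Metric.ball (0 : ℂ) δ := by
      rw [mem_ball_zero_iff, hζ]
      exact lt_of_lt_of_le hrm (min_le_right _ _)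
    obtain ⟨h1, h2⟩ := hball ζ hmem
    rw [hζ] at h1 h2
    have h3 : rho m (γ ζ) ≤ C * r ^ k := by
      refine (le_abs_self _).trans ?_
      rw [Real.norm_eq_abs, norm_pow, Real.norm_eq_abs, abs_of_pos hr] at h2
      exact h2
    have h4 : (c * r ^ (4 * N)) ^ 2 = c ^ 2 * r ^ (8 * N) := by
      rw [mul_pow, ← pow_mul]
      congr 2
      ring
    rw [h4] at h1
    linarith
  have hkN : k ≤ 8 * N := by
    by_contra hcon
    push Not at hcon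
    have hle : ∀ r : ℝ, 0 < r → r < min ε δ → c ^ 2 ≤ C * r ^ (k - 8 * N) := by
      intro r hr hrm
      have h1 := hfin r hr hrm
      have h2 : r ^ k = r ^ (k - 8 * N) * r ^ (8 * N) := by
        rw [← pow_add]
        congr 1
        omega
      rw [h2, ← mul_assoc] at h1
      exact le_of_mul_le_mul_right h1 (by positivity)
    have hlim : Tendsto (fun r : ℝ => C * r ^ (k - 8 * N)) (𝓝[>] 0) (𝓝 0) := by
      have h1 : Tendsto (fun r : ℝ => C * r ^ (k - 8 * N)) (𝓝 0) (𝓝 (C * 0 ^ (k - 8 * N))) :=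
        (by fun_prop : Continuous fun r : ℝ => C * r ^ (k - 8 * N)).tendsto 0
      rw [zero_pow (by omega), mul_zero] at h1
      exact h1.mono_left nhdsWithin_le_nhds
    have h5 : c ^ 2 ≤ 0 := by
      refine ge_of_tendsto hlim ?_
      filter_upwards [Ioo_mem_nhdsGT (lt_min hε hδ)] with r hr
      exact hle r hr.1 hr.2
    have h6 : 0 < c ^ 2 := by positivity
    linarith
  exact_mod_cast hkN

end Pool.MPf12e57
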