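import Pool.Agent.H.MP_f12e57_an.Def

/-!
Geometry of the domain: smooth boundary, connected.
-/

open MeasureTheory Set Filter Topology
open scoped ENNReal NNReal ContDiff

namespace Pool.MPf12e57

theorem Geo_contDiff (m : ℕ) : ContDiff ℝ ∞ (rho m) := by
  have h : ∀ j, ContDiff ℝ ∞ (fun z : Fin (m + 3) → ℂ => ‖z j‖ ^ 2) :=
    fun j => (contDiff_apply ℝ ℂ j).norm_sq ℝ
  have e : rho m = fun z : Fin (m + 3) → ℂ => (‖z 0‖ ^ 2) ^ 2 * ‖z 1‖ ^ 2 + (‖z 0‖ ^ 2) ^ 4 +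
      (‖z 1‖ ^ 2) ^ 4 + (∑ j : Fin (m + 1), ‖z j.succ.succ‖ ^ 2) - 1 := by
    funext z
    unfold rho
    ring
  rw [e]
  exact ((((((h 0).pow 2).mul (h 1)).add ((h 0).pow 4)).add ((h 1).pow 4)).add
    (ContDiff.sum fun j _ => h j.succ.succ)).sub contDiff_const

/-- Scaling. -/
theorem Geo_scale (m : ℕ) (z : Fin (m + 3) → ℂ) (t : ℝ) :
    rho m (t • z) = t ^ 6 * (‖z 0‖ ^ 4 * ‖z 1‖ ^ 2) + t ^ 8 * (‖z 0‖ ^ 8 + ‖z 1‖ ^ 8) +
      t ^ 2 * (∑ j : Fin (m + 1), ‖z j.succ.succ‖ ^ 2) - 1 := by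
  unfold rho
  have h : ∀ j, ‖(t • z) j‖ ^ 2 = t ^ 2 * ‖z j‖ ^ 2 := by
    intro j
    rw [Pi.smul_apply, norm_smul, mul_pow, Real.norm_eq_abs, sq_abs]
  have h4 : ‖(t • z) 0‖ ^ 4 = t ^ 4 * ‖z 0‖ ^ 4 := by
    calc ‖(t • z) 0‖ ^ 4 = (‖(t • z) 0‖ ^ 2) ^ 2 := by ring
      _ = t ^ 4 * ‖z 0‖ ^ 4 := by rw [h]; ring
  have h8 : ∀ j, ‖(t • z) j‖ ^ 8 = t ^ 8 * ‖z j‖ ^ 8 := by
    intro j
    calc ‖(t • z) j‖ ^ 8 = (‖(t • z) j‖ ^ 2) ^ 4 := by ring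
      _ = t ^ 8 * ‖z j‖ ^ 8 := by rw [h]; ring
  have hsum : ∑ j : Fin (m + 1), ‖(t • z) j.succ.succ‖ ^ 2 =
      t ^ 2 * ∑ j : Fin (m + 1), ‖z j.succ.succ‖ ^ 2 := by
    rw [Finset.mul_sum]
    exact Finset.sum_congr rfl fun j _ => h _
  rw [h4, h8, h8, h 1, hsum]
  ring

/-- `rho m` is a smooth defining function. Smooth: `‖z‖ ^ (2k)` is smooth (use `‖z‖^2 =
z.re^2 + z.im^2`, or `Complex.normSq`). On the frontier `rho = 0` (closure ⊆ `rho ≤ 0`, and the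
open set does not meet its frontier). Derivative: if `fderiv ℝ (rho m) z = 0` then
`t ↦ rho m (t • z)` has derivative `0` at `t = 1`, but this derivative is
`6 ‖z 0‖^4 ‖z 1‖^2 + 8 ‖z 0‖^8 + 8 ‖z 1‖^8 + 2 ∑ ‖z j‖^2 ≥ 2 (rho m z + 1) = 2`. -/
theorem isDefining_rho (m : ℕ) : IsDefiningFunction (rho m) (Omega m) := by
  refine ⟨Geo_contDiff m, rfl, fun z hz => ?_⟩
  have h0 : rho m z = 0 := frontier_lt_subset_eq (continuous_rho m) continuous_const hz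
  refine ⟨h0, fun hf => ?_⟩
  have hd : Differentiable ℝ (rho m) := (Geo_contDiff m).differentiable (by simp)
  set A : ℝ := ‖z 0‖ ^ 4 * ‖z 1‖ ^ 2 with hA
  set B : ℝ := ‖z 0‖ ^ 8 + ‖z 1‖ ^ 8 with hB
  set D : ℝ := ∑ j : Fin (m + 1), ‖z j.succ.succ‖ ^ 2 with hD
  have hA0 : 0 ≤ A := by positivity
  have hB0 : 0 ≤ B := by positivity
  have hD0 : 0 ≤ D := Finset.sum_nonneg fun i _ => by positivity
  have h1 : A + B + D = 1 := by
    have h2 : rho m z = A + B + D - 1 := by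
      unfold rho
      ring
    linarith
  have hg : HasDerivAt (fun t : ℝ => rho m (t • z)) (6 * A + 8 * B + 2 * D) 1 := by
    have e : (fun t : ℝ => rho m (t • z)) = fun t => t ^ 6 * A + t ^ 8 * B + t ^ 2 * D - 1 := by
      funext t
      exact Geo_scale m z t
    rw [e]
    have h3 := ((((hasDerivAt_pow 6 (1 : ℝ)).mul_const A).add
      ((hasDerivAt_pow 8 (1 : ℝ)).mul_const B)).add
      ((hasDerivAt_pow 2 (1 : ℝ)).mul_const D)).sub_const 1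
    have h4 : ((6 : ℕ) : ℝ) * 1 ^ (6 - 1) * A + ((8 : ℕ) : ℝ) * 1 ^ (8 - 1) * B +
        ((2 : ℕ) : ℝ) * 1 ^ (2 - 1) * D = 6 * A + 8 * B + 2 * D := by norm_num
    rw [h4] at h3
    exact h3
  have hg' : HasDerivAt (fun t : ℝ => rho m (t • z)) 0 1 := by
    have h3 : HasFDerivAt (rho m) (fderiv ℝ (rho m) ((1 : ℝ) • z)) ((1 : ℝ) • z) :=
      (hd _).hasFDerivAt
    have h4 : HasDerivAt (fun t : ℝ => t • z) ((1 : ℝ) • z) 1 := (hasDerivAt_id (1 : ℝ)).smul_const z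
    have h5 := h3.comp_hasDerivAt (1 : ℝ) h4
    rw [one_smul, hf, ContinuousLinearMap.zero_apply] at h5
    exact h5
  have h6 := hg.unique hg'
  linarith

/-- Star-shaped about `0`. -/
theorem isConnected_Omega (m : ℕ) : IsConnected (Omega m) := by
  have h0 : (0 : Fin (m + 3) → ℂ) ∈ Omega m := by
    show rho m 0 < 0
    unfold rho
    simp
  have hs : StarConvex ℝ 0 (Omega m) := by
    intro y hy a b ha hb hab
    rw [smul_zero, zero_add]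
    refine Omega_reinhardt hy fun j => ?_
    rw [Pi.smul_apply, norm_smul, Real.norm_eq_abs, abs_of_nonneg hb]
    have hb1 : b ≤ 1 := by linarith
    exact mul_le_of_le_one_left (norm_nonneg _) hb1
  exact (hs.isPathConnected h0).isConnected

end Pool.MPf12e57
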