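import Pool.Agent.H.MP_f12e57_an.Def

/-!
Lower bounds for the `L^s` norms of the monomial `z₁ z₃^c`.
-/

open MeasureTheory Set Filter Topology
open scoped ENNReal NNReal ContDiff

namespace Pool.MPf12e57

theorem Lower_vol {a b : ℝ} (ha : 0 ≤ a) (hab : a ≤ b) :
    volume (Metric.closedBall (0 : ℂ) b \ Metric.ball 0 a) =
      ENNReal.ofReal ((b ^ 2 - a ^ 2) * Real.pi) := by
  have hb : 0 ≤ b := ha.trans hab
  have hsub : Metric.ball (0 : ℂ) a ⊆ Metric.closedBall 0 b :=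
    Metric.ball_subset_closedBall.trans (Metric.closedBall_subset_closedBall hab)
  have e : ∀ r : ℝ, 0 ≤ r → ENNReal.ofReal r ^ 2 * (NNReal.pi : ENNReal) =
      ENNReal.ofReal (r ^ 2 * Real.pi) := by
    intro r hr
    rw [ENNReal.ofReal_mul (by positivity), ENNReal.ofReal_pow hr]
    congr 1
    rw [← NNReal.coe_real_pi, ENNReal.ofReal_coe_nnreal]
  rw [measure_sdiff hsub Metric.isOpen_ball.measurableSet.nullMeasurableSet
    (measure_ball_lt_top).ne, Complex.volume_closedBall, Complex.volume_ball, e b hb, e a ha,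
    ← ENNReal.ofReal_sub _ (by positivity)]
  congr 1
  ring

theorem Lower_vol' {b : ℝ} (hb : 0 ≤ b) :
    volume (Metric.closedBall (0 : ℂ) b) = ENNReal.ofReal (b ^ 2 * Real.pi) := by
  have h := Lower_vol (a := 0) le_rfl hb
  simpa using h

/-- the box -/
def Lower_S (m : ℕ) (t ρ σ : ℝ) : Fin (m + 3) → Set ℂ :=
  Fin.cons (Metric.closedBall 0 ρ \ Metric.ball 0 (ρ / 2))
    (Fin.cons (Metric.closedBall 0 σ)
      (Fin.cons (Metric.closedBall 0 √(1 - t / 2) \ Metric.ball 0 √(1 - t))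
        (fun _ : Fin m => Metric.closedBall 0 √(t / (8 * (m + 1))))))

theorem Lower_S0 (m : ℕ) (t ρ σ : ℝ) :
    Lower_S m t ρ σ 0 = Metric.closedBall 0 ρ \ Metric.ball 0 (ρ / 2) := rfl

theorem Lower_S1 (m : ℕ) (t ρ σ : ℝ) :
    Lower_S m t ρ σ 1 = Metric.closedBall 0 σ := rfl

theorem Lower_S2 (m : ℕ) (t ρ σ : ℝ) :
    Lower_S m t ρ σ 2 = Metric.closedBall 0 √(1 - t / 2) \ Metric.ball 0 √(1 - t) := rfl

theorem Lower_S3 (m : ℕ) (t ρ σ : ℝ) (i : Fin m) :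
    Lower_S m t ρ σ i.succ.succ.succ = Metric.closedBall 0 √(t / (8 * (m + 1))) := rfl

theorem Lower_volS {m : ℕ} {t ρ σ : ℝ} (ht : 0 < t) (ht1 : t ≤ 1) (hρ : 0 < ρ) (hσ : 0 < σ) :
    volume (Set.univ.pi (Lower_S m t ρ σ)) = ENNReal.ofReal
      ((3 / 4 * ρ ^ 2 * Real.pi) * ((σ ^ 2 * Real.pi) * ((t / 2 * Real.pi) *
        (t / (8 * (m + 1)) * Real.pi) ^ m))) := by
  have hpi := Real.pi_pos
  rw [volume_pi_pi, Fin.prod_univ_succ, Fin.prod_univ_succ, Fin.prod_univ_succ]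
  have e0 : volume (Lower_S m t ρ σ 0) = ENNReal.ofReal (3 / 4 * ρ ^ 2 * Real.pi) := by
    rw [Lower_S0, Lower_vol (by positivity) (by linarith)]
    congr 1
    ring
  have e1 : volume (Lower_S m t ρ σ (Fin.succ 0)) = ENNReal.ofReal (σ ^ 2 * Real.pi) := by
    have h : Lower_S m t ρ σ (Fin.succ 0) = Metric.closedBall 0 σ := rfl
    rw [h, Lower_vol' hσ.le]
  have e2 : volume (Lower_S m t ρ σ (Fin.succ (Fin.succ 0))) =
      ENNReal.ofReal (t / 2 * Real.pi) := by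
    have h : Lower_S m t ρ σ (Fin.succ (Fin.succ 0)) =
      Metric.closedBall 0 √(1 - t / 2) \ Metric.ball 0 √(1 - t) := rfl
    rw [h, Lower_vol (Real.sqrt_nonneg _) (Real.sqrt_le_sqrt (by linarith)),
      Real.sq_sqrt (by linarith), Real.sq_sqrt (by linarith)]
    congr 1
    ring
  have e3 : ∀ i : Fin m, volume (Lower_S m t ρ σ i.succ.succ.succ) =
      ENNReal.ofReal (t / (8 * (m + 1)) * Real.pi) := by
    intro i
    rw [Lower_S3, Lower_vol' (Real.sqrt_nonneg _), Real.sq_sqrt (by positivity)]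
  rw [e0, e1, e2, Finset.prod_congr rfl fun i _ => e3 i, Finset.prod_const, Finset.card_univ,
    Fintype.card_fin, ← ENNReal.ofReal_pow (by positivity), ← ENNReal.ofReal_mul (by positivity),
    ← ENNReal.ofReal_mul (by positivity), ← ENNReal.ofReal_mul (by positivity)]

theorem Lower_memS {m : ℕ} {t ρ σ : ℝ} (ht : 0 < t) (ht1 : t ≤ 1)
    (h1 : ρ ^ 4 * σ ^ 2 ≤ t / 16) (h2 : ρ ^ 8 ≤ t / 16) (h3 : σ ^ 8 ≤ t / 16)
    {z : Fin (m + 3) → ℂ} (hz : z ∈ Set.univ.pi (Lower_S m t ρ σ)) :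
    z ∈ Omega m ∧ ρ / 2 ≤ ‖z 0‖ ∧ √(1 - t) ≤ ‖z 2‖ := by
  have z0 : z 0 ∈ Lower_S m t ρ σ 0 := hz 0 (Set.mem_univ _)
  have z1 : z 1 ∈ Lower_S m t ρ σ 1 := hz 1 (Set.mem_univ _)
  have z2 : z 2 ∈ Lower_S m t ρ σ 2 := hz 2 (Set.mem_univ _)
  have z3 : ∀ i : Fin m, z i.succ.succ.succ ∈ Lower_S m t ρ σ i.succ.succ.succ :=
    fun i => hz _ (Set.mem_univ _)
  rw [Lower_S0, Set.mem_sdiff, mem_closedBall_zero_iff, mem_ball_zero_iff, not_lt] at z0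
  rw [Lower_S1, mem_closedBall_zero_iff] at z1
  rw [Lower_S2, Set.mem_sdiff, mem_closedBall_zero_iff, mem_ball_zero_iff, not_lt] at z2
  refine ⟨?_, z0.2, z2.2⟩
  show rho m z < 0
  unfold rho
  have a1 : ‖z 0‖ ^ 4 * ‖z 1‖ ^ 2 ≤ t / 16 := by
    refine le_trans ?_ h1
    gcongr
    exact z0.1
  have a2 : ‖z 0‖ ^ 8 ≤ t / 16 := by
    refine le_trans ?_ h2
    gcongr
    exact z0.1
  have a3 : ‖z 1‖ ^ 8 ≤ t / 16 := by
    refine le_trans ?_ h3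
    gcongr
  have a4 : ‖z 2‖ ^ 2 ≤ 1 - t / 2 := by
    have h5 := pow_le_pow_left₀ (norm_nonneg _) z2.1 2
    rwa [Real.sq_sqrt (by linarith)] at h5
  have a5 : ∀ i : Fin m, ‖z i.succ.succ.succ‖ ^ 2 ≤ t / (8 * (m + 1)) := by
    intro i
    have h5 := z3 i
    rw [Lower_S3, mem_closedBall_zero_iff] at h5
    have h6 := pow_le_pow_left₀ (norm_nonneg _) h5 2
    rwa [Real.sq_sqrt (by positivity)] at h6
  have a6 : ∑ j : Fin (m + 1), ‖z j.succ.succ‖ ^ 2 =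
      ‖z 2‖ ^ 2 + ∑ i : Fin m, ‖z i.succ.succ.succ‖ ^ 2 := by
    rw [Fin.sum_univ_succ]
    rfl
  have a7 : ∑ i : Fin m, ‖z i.succ.succ.succ‖ ^ 2 ≤ t / 8 := by
    refine (Finset.sum_le_sum fun i _ => a5 i).trans ?_
    rw [Finset.sum_const, Finset.card_univ, Fintype.card_fin, nsmul_eq_mul, mul_div_assoc',
      div_le_div_iff₀ (by positivity) (by norm_num)]
    have : (0 : ℝ) ≤ m := Nat.cast_nonneg m
    nlinarith
  rw [a6]
  linarith

/-- General box bound. Let `0 < t ≤ 1`, and the box `B`: `ρ/2 ≤ ‖z 0‖ ≤ ρ`, `‖z 1‖ ≤ σ`,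
`1 - t ≤ ‖z 2‖² ≤ 1 - t/2`, `‖z j‖² ≤ t/(8(m+1))` for `j ≥ 3`, where `ρ⁴σ² ≤ t/16`, `ρ⁸ ≤ t/16`, `σ⁸ ≤ t/16`.
Then `B ⊆ Omega m`, the volume of `B` is
`(3π/4) ρ² * π σ² * (π t/2) * (π t/(8(m+1)))^m`, and on `B`: `‖mono m c z‖^s ≥ (ρ/2)^s (1-t)^{cs/2}`; with
`t = 1/(2c)`: `(1-t)^{c} ≥ 1/2` (Bernoulli), so `(1-t)^{cs/2} ≥ 2^{-s/2}`. -/
theorem lower_box (m : ℕ) (s : ℝ) (hs : 0 < s) :
    ∃ k : ℝ, 0 < k ∧ ∀ c : ℕ, 1 ≤ c → ∀ ρ σ : ℝ, 0 < ρ → 0 < σ →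
      ρ ^ 4 * σ ^ 2 ≤ 1 / (32 * c) → ρ ^ 8 ≤ 1 / (32 * c) → σ ^ 8 ≤ 1 / (32 * c) →
      ENNReal.ofReal (k * ρ ^ (s + 2) * σ ^ 2 * (c : ℝ) ^ (-((m : ℝ) + 1)))
        ≤ ∫⁻ z in Omega m, ENNReal.ofReal (‖mono m c z‖ ^ s) := by
  have hpi := Real.pi_pos
  refine ⟨(1 / 4) ^ s * ((3 / 4 * Real.pi) * (Real.pi * ((1 / 4 * Real.pi) *
    (1 / (16 * (m + 1)) * Real.pi) ^ m))), by positivity, ?_⟩
  intro c hc ρ σ hρ hσ h1 h2 h3
  have hcR : (1 : ℝ) ≤ c := by exact_mod_cast hc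
  have hc0 : (0 : ℝ) < c := by linarith
  obtain ⟨t, ht⟩ : ∃ t : ℝ, t = 1 / (2 * c) := ⟨_, rfl⟩
  have ht0 : 0 < t := by rw [ht]; positivity
  have ht1 : t ≤ 1 / 2 := by
    rw [ht, div_le_div_iff₀ (by positivity) (by norm_num)]
    linarith
  have ht16 : 1 / (32 * (c : ℝ)) = t / 16 := by
    rw [ht]
    field_simp
    norm_num
  rw [ht16] at h1 h2 h3
  obtain ⟨B, hB⟩ : ∃ B, B = Set.univ.pi (Lower_S m t ρ σ) := ⟨_, rfl⟩
  have hmem : ∀ z ∈ B, z ∈ Omega m ∧ ρ / 2 ≤ ‖z 0‖ ∧ √(1 - t) ≤ ‖z 2‖ := by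
    intro z hz
    rw [hB] at hz
    exact Lower_memS ht0 (by linarith) h1 h2 h3 hz
  have hBsub : B ⊆ Omega m := fun z hz => (hmem z hz).1
  have hpow : 1 / 2 ≤ √(1 - t) ^ c := by
    have h4 : (1 / 2 : ℝ) ≤ (1 - t) ^ c := by
      have h5 := one_add_mul_le_pow (a := -t) (by linarith) c
      have h6 : (c : ℝ) * -t = -(1 / 2) := by
        rw [ht]
        field_simp
      rw [h6] at h5
      have h7 : (1 : ℝ) + -t = 1 - t := by ring
      rw [h7] at h5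
      linarith
    have h5 : (1 - t) ^ c ≤ √(1 - t) ^ c := by
      apply pow_le_pow_left₀ (by linarith)
      apply Real.le_sqrt_of_sq_le
      nlinarith
    linarith
  have hlow : ∀ z ∈ B, ENNReal.ofReal ((ρ / 4) ^ s) ≤ ENNReal.ofReal (‖mono m c z‖ ^ s) := by
    intro z hz
    obtain ⟨-, h5, h6⟩ := hmem z hz
    apply ENNReal.ofReal_le_ofReal
    apply Real.rpow_le_rpow (by positivity) _ hs.le
    rw [norm_mono]
    have h7 : 1 / 2 ≤ ‖z 2‖ ^ c := hpow.trans (pow_le_pow_left₀ (Real.sqrt_nonneg _) h6 c)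
    calc ρ / 4 = ρ / 2 * (1 / 2) := by ring
      _ ≤ ‖z 0‖ * ‖z 2‖ ^ c := by
        apply mul_le_mul h5 h7 (by norm_num) (norm_nonneg _)
  have hBm : MeasurableSet B := by
    rw [hB]
    apply MeasurableSet.univ_pi
    intro j
    refine Fin.cases ?_ (fun i => Fin.cases ?_ (fun k => Fin.cases ?_ (fun l => ?_) k) i) j
    · exact Metric.isClosed_closedBall.measurableSet.diff Metric.isOpen_ball.measurableSet
    · exact Metric.isClosed_closedBall.measurableSet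
    · exact Metric.isClosed_closedBall.measurableSet.diff Metric.isOpen_ball.measurableSet
    · exact Metric.isClosed_closedBall.measurableSet
  calc ENNReal.ofReal ((1 / 4) ^ s * ((3 / 4 * Real.pi) * (Real.pi * ((1 / 4 * Real.pi) *
    (1 / (16 * (m + 1)) * Real.pi) ^ m))) * ρ ^ (s + 2) * σ ^ 2 * (c : ℝ) ^ (-((m : ℝ) + 1)))
      = ENNReal.ofReal ((ρ / 4) ^ s) * volume B := by
        rw [hB, Lower_volS ht0 (by linarith) hρ hσ, ← ENNReal.ofReal_mul (by positivity)]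
        congr 1
        have e1 : (ρ / 4) ^ s = (1 / 4) ^ s * ρ ^ s := by
          rw [← Real.mul_rpow (by norm_num) hρ.le]
          congr 1
          ring
        have e2 : ρ ^ (s + 2) = ρ ^ s * ρ ^ 2 := by
          rw [Real.rpow_add hρ]
          congr 1
          exact_mod_cast Real.rpow_natCast ρ 2
        have e3 : (c : ℝ) ^ (-((m : ℝ) + 1)) = (c : ℝ)⁻¹ * ((c : ℝ)⁻¹) ^ m := by
          rw [Real.rpow_neg hc0.le, Real.rpow_add hc0, Real.rpow_natCast, Real.rpow_one,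
            mul_inv, inv_pow, mul_comm]
        have e4 : (t / (8 * ((m : ℝ) + 1)) * Real.pi) ^ m =
            (1 / (16 * ((m : ℝ) + 1)) * Real.pi) ^ m * ((c : ℝ)⁻¹) ^ m := by
          rw [← mul_pow]
          congr 1
          rw [ht]
          field_simp
          norm_num
        have e5 : t / 2 * Real.pi = (1 / 4 * Real.pi) * (c : ℝ)⁻¹ := by
          rw [ht]
          field_simp
          norm_num
        rw [e1, e2, e3, e4, e5]
        ring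
    _ = ∫⁻ _ in B, ENNReal.ofReal ((ρ / 4) ^ s) := by rw [setLIntegral_const]
    _ ≤ ∫⁻ z in B, ENNReal.ofReal (‖mono m c z‖ ^ s) := setLIntegral_mono' hBm hlow
    _ ≤ ∫⁻ z in Omega m, ENNReal.ofReal (‖mono m c z‖ ^ s) := lintegral_mono_set hBsub

theorem Lower_gen (m : ℕ) (s : ℝ) (hs : 0 < s) (a b : ℝ) (hab : 4 * a + 2 * b = 1)
    (ha : 1 ≤ 8 * a) (hb : 1 ≤ 8 * b) :
    ∃ k : ℝ, 0 < k ∧ ∀ c : ℕ, 1 ≤ c →
      ENNReal.ofReal (k * (c : ℝ) ^ (-((m : ℝ) + 1) - a * (s + 2) - 2 * b))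
        ≤ ∫⁻ z in Omega m, ENNReal.ofReal (‖mono m c z‖ ^ s) := by
  obtain ⟨k, hk, h⟩ := lower_box m s hs
  refine ⟨k * (32 : ℝ) ^ (-(a * (s + 2)) - 2 * b), by positivity, ?_⟩
  intro c hc
  have hcR : (1 : ℝ) ≤ c := by exact_mod_cast hc
  have hc0 : (0 : ℝ) < c := by linarith
  have hx : (0 : ℝ) < 32 * c := by positivity
  have hx1 : (1 : ℝ) ≤ 32 * c := by linarith
  have hnat : ∀ (e : ℝ) (j : ℕ), ((32 * (c : ℝ)) ^ (-e)) ^ j = (32 * (c : ℝ)) ^ (-(j * e)) := by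
    intro e j
    rw [← Real.rpow_natCast, ← Real.rpow_mul hx.le]
    congr 1
    ring
  have hinv : 1 / (32 * (c : ℝ)) = (32 * (c : ℝ)) ^ (-1 : ℝ) := by
    rw [Real.rpow_neg_one, one_div]
  refine le_trans (le_of_eq ?_) (h c hc ((32 * (c : ℝ)) ^ (-a)) ((32 * (c : ℝ)) ^ (-b))
    (by positivity) (by positivity) ?_ ?_ ?_)
  · congr 1
    have e1 : ((32 * (c : ℝ)) ^ (-a)) ^ (s + 2) = (32 * (c : ℝ)) ^ (-(a * (s + 2))) := by
      rw [← Real.rpow_mul hx.le]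
      congr 1
      ring
    have e2 := hnat b 2
    have e3 : (32 * (c : ℝ)) ^ (-(a * (s + 2))) * (32 * (c : ℝ)) ^ (-((2 : ℕ) * b)) =
        (32 : ℝ) ^ (-(a * (s + 2)) - 2 * b) * (c : ℝ) ^ (-(a * (s + 2)) - 2 * b) := by
      have e5 : -(a * (s + 2)) + -(((2 : ℕ) : ℝ) * b) = -(a * (s + 2)) - 2 * b := by
        push_cast
        ring
      rw [← Real.rpow_add hx, e5, ← Real.mul_rpow (by norm_num) hc0.le]
    have e4 : (c : ℝ) ^ (-((m : ℝ) + 1) - a * (s + 2) - 2 * b) =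
        (c : ℝ) ^ (-((m : ℝ) + 1)) * (c : ℝ) ^ (-(a * (s + 2)) - 2 * b) := by
      rw [← Real.rpow_add hc0]
      congr 1
      ring
    rw [e1, e2, e4]
    calc _ = k * ((32 : ℝ) ^ (-(a * (s + 2)) - 2 * b) * (c : ℝ) ^ (-(a * (s + 2)) - 2 * b)) *
          (c : ℝ) ^ (-((m : ℝ) + 1)) := by ring
      _ = _ := by rw [← e3]; ring
  · rw [hnat, hnat, ← Real.rpow_add hx, hinv]
    apply le_of_eq
    congr 1
    push_cast
    linarith
  · rw [hnat, hinv]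
    apply Real.rpow_le_rpow_of_exponent_le hx1
    push_cast
    linarith
  · rw [hnat, hinv]
    apply Real.rpow_le_rpow_of_exponent_le hx1
    push_cast
    linarith

/-- Far end of the tentacle: `ρ = (32 c)^{-1/8}`, `σ = (32 c)^{-1/4}`. -/
theorem lower_far (m : ℕ) (s : ℝ) (hs : 0 < s) :
    ∃ k : ℝ, 0 < k ∧ ∀ c : ℕ, 1 ≤ c →
      ENNReal.ofReal (k * (c : ℝ) ^ (-((m : ℝ) + 2) - (s - 2) / 8))
        ≤ ∫⁻ z in Omega m, ENNReal.ofReal (‖mono m c z‖ ^ s) := by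
  obtain ⟨k, hk, h⟩ := Lower_gen m s hs (1 / 8) (1 / 4) (by norm_num) (by norm_num) (by norm_num)
  refine ⟨k, hk, fun c hc => le_trans (le_of_eq ?_) (h c hc)⟩
  congr 3
  ring

/-- Core: `ρ = (32 c)^{-3/16}`, `σ = (32 c)^{-1/8}`. -/
theorem lower_core (m : ℕ) (s : ℝ) (hs : 0 < s) :
    ∃ k : ℝ, 0 < k ∧ ∀ c : ℕ, 1 ≤ c →
      ENNReal.ofReal (k * (c : ℝ) ^ (-((m : ℝ) + 2) - 3 * (s - 2) / 16))
        ≤ ∫⁻ z in Omega m, ENNReal.ofReal (‖mono m c z‖ ^ s) := by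
  obtain ⟨k, hk, h⟩ := Lower_gen m s hs (3 / 16) (1 / 8) (by norm_num) (by norm_num) (by norm_num)
  refine ⟨k, hk, fun c hc => le_trans (le_of_eq ?_) (h c hc)⟩
  congr 3
  ring

end Pool.MPf12e57
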