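import Pool.Agent.H.MP_f12e57_an.Def

/-!
Upper bound for the `L²` norm of the monomial `z₁ z₃^c`.
-/

open MeasureTheory Set Filter Topology
open scoped ENNReal NNReal ContDiff

namespace Pool.MPf12e57

theorem upper_integrable {q p b : ℝ} (hp : 1 ≤ p) (hq : -2 < q) (hb : 0 < b) :
    Integrable (fun x : ℂ => ‖x‖ ^ q * Real.exp (-b * ‖x‖ ^ p)) := by
  apply Integrable.of_integral_ne_zero
  rw [Complex.integral_rpow_mul_exp_neg_mul_rpow hp hq hb]
  have h1 : 0 < Real.Gamma ((q + 2) / p) :=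
    Real.Gamma_pos_of_pos (div_pos (by linarith) (by linarith))
  have := Real.pi_pos
  have := Real.rpow_pos_of_pos hb (-(q + 2) / p)
  positivity

/-- The factor of the variable `z 2`. -/
noncomputable def upperG (a : ℝ) (w : ℂ) : ℝ :=
  (Metric.ball (0 : ℂ) 1).indicator (fun w => Real.exp (-a * (1 - ‖w‖ ^ 2))) w

theorem upperG_nonneg (a : ℝ) (w : ℂ) : 0 ≤ upperG a w :=
  indicator_nonneg (fun _ _ => (Real.exp_pos _).le) w

theorem upperG_integrable (a : ℝ) : Integrable (upperG a) := by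
  unfold upperG
  rw [integrable_indicator_iff Metric.isOpen_ball.measurableSet]
  refine IntegrableOn.mono_set (t := Metric.closedBall (0 : ℂ) 1) ?_ Metric.ball_subset_closedBall
  exact ContinuousOn.integrableOn_compact (isCompact_closedBall _ _) (by fun_prop)

theorem upperG_integral {a : ℝ} (ha : 0 < a) : ∫ w, upperG a w ≤ Real.pi / a := by
  have h1 : ∀ w : ℂ, upperG a w =
      (fun y : ℝ => (Iio (1 : ℝ)).indicator (fun y => Real.exp (-a * (1 - y ^ 2))) y) ‖w‖ := by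
    intro w
    simp only [upperG, indicator, Metric.mem_ball, dist_zero_right, mem_Iio]
  rw [integral_congr_ae (Eventually.of_forall h1), integral_fun_norm_addHaar volume
    (f := fun y : ℝ => (Iio (1 : ℝ)).indicator (fun y => Real.exp (-a * (1 - y ^ 2))) y)]
  have h2 : (volume : Measure ℂ).real (Metric.ball 0 1) = Real.pi := by
    rw [Measure.real, Complex.volume_ball]
    simp
  have h3 : ∫ y in Ioi (0 : ℝ), y ^ (Module.finrank ℝ ℂ - 1) •
      (Iio (1 : ℝ)).indicator (fun y => Real.exp (-a * (1 - y ^ 2))) y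
      = (1 - Real.exp (-a)) / (2 * a) := by
    have h4 : ∀ y : ℝ, y ^ (Module.finrank ℝ ℂ - 1) •
      (Iio (1 : ℝ)).indicator (fun y => Real.exp (-a * (1 - y ^ 2))) y
      = (Iio (1 : ℝ)).indicator (fun y => y * Real.exp (-a * (1 - y ^ 2))) y := by
      intro y
      simp only [indicator, Complex.finrank_real_complex]
      split_ifs <;> simp
    rw [integral_congr_ae (Eventually.of_forall h4), setIntegral_indicator measurableSet_Iio]
    have h5 : Ioi (0 : ℝ) ∩ Iio 1 = Ioo 0 1 := rfl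
    rw [h5, ← integral_Ioc_eq_integral_Ioo, ← intervalIntegral.integral_of_le zero_le_one]
    have h6 : ∀ y ∈ uIcc (0 : ℝ) 1, HasDerivAt (fun y : ℝ => Real.exp (-a * (1 - y ^ 2)) / (2 * a))
        (y * Real.exp (-a * (1 - y ^ 2))) y := by
      intro y _
      have h7 : HasDerivAt (fun y : ℝ => -a * (1 - y ^ 2)) (-a * (0 - 2 * y)) y := by
        have h8 := ((hasDerivAt_const y (1 : ℝ)).sub (hasDerivAt_pow 2 y)).const_mul (-a)
        simpa using h8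
      have h9 := (h7.exp).div_const (2 * a)
      refine h9.congr_deriv ?_
      rw [div_eq_iff (by positivity)]
      ring
    rw [intervalIntegral.integral_eq_sub_of_hasDerivAt h6
      (Continuous.intervalIntegrable (by fun_prop) _ _)]
    simp
    ring
  rw [h2, h3, Complex.finrank_real_complex]
  have h10 := Real.exp_pos (-a)
  have h11 := Real.pi_pos
  simp only [smul_eq_mul, nsmul_eq_mul, Nat.cast_ofNat]
  rw [le_div_iff₀ ha]
  have h12 : 2 * (Real.pi * ((1 - Real.exp (-a)) / (2 * a))) * a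
      = Real.pi * (1 - Real.exp (-a)) := by
    field_simp
  rw [h12]
  nlinarith

/-- `e^{-x} ≤ x^{-(1-ε)}` for `x > 0`. -/
theorem upper_exp_le {x ε : ℝ} (hx : 0 < x) (hε : 0 < ε) (hε1 : ε < 1) :
    Real.exp (-x) ≤ x ^ (-(1 - ε)) := by
  rw [Real.exp_neg, Real.rpow_neg hx.le]
  apply inv_anti₀ (Real.rpow_pos_of_pos hx _)
  have h1 := Real.add_one_le_exp x
  rcases le_total x 1 with h | h
  · have := Real.rpow_le_one hx.le h (by linarith : (0 : ℝ) ≤ 1 - ε)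
    linarith
  · have := Real.rpow_le_rpow_of_exponent_le h (by linarith : 1 - ε ≤ (1 : ℝ))
    rw [Real.rpow_one] at this
    linarith

/-- The factor of the variables `z 0` and `z 1`. -/
noncomputable def upperA (q a : ℝ) (w : ℂ) : ℝ := ‖w‖ ^ q * Real.exp (-a * ‖w‖ ^ (8 : ℝ))

/-- The factor of the variables `z j`, `j ≥ 3`. -/
noncomputable def upperE (a : ℝ) (w : ℂ) : ℝ := ‖w‖ ^ (0 : ℝ) * Real.exp (-a * ‖w‖ ^ (2 : ℝ))

theorem upperA_nonneg (q a : ℝ) (w : ℂ) : 0 ≤ upperA q a w := by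
  unfold upperA; positivity

theorem upperE_nonneg (a : ℝ) (w : ℂ) : 0 ≤ upperE a w := by
  unfold upperE; positivity

/-- The two variable estimate. -/
theorem upper_two {a ε : ℝ} (ha : 0 < a) (hε : 0 < ε) (hε1 : ε < 1) (x y : ℂ) (hy : y ≠ 0) :
    ‖x‖ ^ 2 * Real.exp (-a * (‖x‖ ^ 4 * ‖y‖ ^ 2 + ‖x‖ ^ 8 + ‖y‖ ^ 8)) ≤
      a ^ (-(1 - ε)) * (upperA (-2 + 4 * ε) a x * upperA (-2 + 2 * ε) a y) := by
  rcases eq_or_ne x 0 with rfl | hx
  · have h1 := upperA_nonneg (-2 + 4 * ε) a 0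
    have h2 := upperA_nonneg (-2 + 2 * ε) a y
    have h3 := Real.rpow_pos_of_pos ha (-(1 - ε))
    have h4 : 0 ≤ a ^ (-(1 - ε)) * (upperA (-2 + 4 * ε) a 0 * upperA (-2 + 2 * ε) a y) := by
      positivity
    simpa using h4
  · have hx0 : 0 < ‖x‖ := norm_pos_iff.2 hx
    have hy0 : 0 < ‖y‖ := norm_pos_iff.2 hy
    have h1 : Real.exp (-a * (‖x‖ ^ 4 * ‖y‖ ^ 2 + ‖x‖ ^ 8 + ‖y‖ ^ 8)) =
        Real.exp (-(a * ‖x‖ ^ 4 * ‖y‖ ^ 2)) * Real.exp (-a * ‖x‖ ^ 8) * Real.exp (-a * ‖y‖ ^ 8) := by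
      rw [← Real.exp_add, ← Real.exp_add]
      congr 1
      ring
    have h2 := upper_exp_le (x := a * ‖x‖ ^ 4 * ‖y‖ ^ 2) (by positivity) hε hε1
    have h3 : (a * ‖x‖ ^ 4 * ‖y‖ ^ 2) ^ (-(1 - ε)) =
        a ^ (-(1 - ε)) * ‖x‖ ^ (4 * (-(1 - ε))) * ‖y‖ ^ (2 * (-(1 - ε))) := by
      rw [Real.mul_rpow (by positivity) (by positivity), Real.mul_rpow (by positivity) (by positivity),
        ← Real.rpow_natCast_mul hx0.le, ← Real.rpow_natCast_mul hy0.le]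
      norm_num
    have h4 : ‖x‖ ^ 2 * ‖x‖ ^ (4 * (-(1 - ε))) = ‖x‖ ^ (-2 + 4 * ε) := by
      rw [← Real.rpow_natCast, ← Real.rpow_add hx0]
      congr 1
      push_cast
      ring
    have h5 : ‖y‖ ^ (2 * (-(1 - ε))) = ‖y‖ ^ (-2 + 2 * ε) := by
      congr 1
      ring
    have h6 : ‖x‖ ^ (8 : ℝ) = ‖x‖ ^ 8 := by
      rw [← Real.rpow_natCast]; norm_num
    have h7 : ‖y‖ ^ (8 : ℝ) = ‖y‖ ^ 8 := by
      rw [← Real.rpow_natCast]; norm_num
    unfold upperA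
    rw [h1, h6, h7, ← h4, ← h5]
    rw [h3] at h2
    calc ‖x‖ ^ 2 * (Real.exp (-(a * ‖x‖ ^ 4 * ‖y‖ ^ 2)) * Real.exp (-a * ‖x‖ ^ 8) *
          Real.exp (-a * ‖y‖ ^ 8))
        ≤ ‖x‖ ^ 2 * (a ^ (-(1 - ε)) * ‖x‖ ^ (4 * (-(1 - ε))) * ‖y‖ ^ (2 * (-(1 - ε))) *
          Real.exp (-a * ‖x‖ ^ 8) * Real.exp (-a * ‖y‖ ^ 8)) := by gcongr
      _ = _ := by ring

/-- The factors as one family. -/
noncomputable def upperF (m : ℕ) (ε a : ℝ) : Fin (m + 3) → ℂ → ℝ :=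
  Fin.cons (upperA (-2 + 4 * ε) a) (Fin.cons (upperA (-2 + 2 * ε) a)
    (Fin.cons (upperG a) (fun _ => upperE a)))

theorem upperF_prod (m : ℕ) (ε a : ℝ) (z : Fin (m + 3) → ℂ) :
    ∏ j, upperF m ε a j (z j) = upperA (-2 + 4 * ε) a (z 0) * (upperA (-2 + 2 * ε) a (z 1) *
      (upperG a (z 2) * ∏ j : Fin m, upperE a (z j.succ.succ.succ))) := by
  have h0 : upperF m ε a 0 = upperA (-2 + 4 * ε) a := rfl
  have h1 : upperF m ε a (Fin.succ 0) = upperA (-2 + 2 * ε) a := rfl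
  have h2 : upperF m ε a (Fin.succ (Fin.succ 0)) = upperG a := rfl
  have h3 : ∀ j : Fin m, upperF m ε a j.succ.succ.succ = upperE a := fun _ => rfl
  rw [Fin.prod_univ_succ, Fin.prod_univ_succ, Fin.prod_univ_succ, h0, h1, h2]
  simp only [h3, Fin.succ_zero_eq_one, Fin.succ_one_eq_two]

theorem upper_pointwise {m : ℕ} {a ε : ℝ} (ha : 0 < a) (hε : 0 < ε) (hε1 : ε < 1) {c : ℕ}
    (hc : (c : ℝ) = 2 * a) {z : Fin (m + 3) → ℂ} (hz : z ∈ Omega m) (hz1 : z 1 ≠ 0) :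
    ‖mono m c z‖ ^ 2 ≤ a ^ (-(1 - ε)) * ∏ j, upperF m ε a j (z j) := by
  rw [upperF_prod, norm_mono]
  have h2lt := norm_lt_one_of_mem hz 2
  have hrho : rho m z < 0 := hz
  unfold rho at hrho
  rw [Fin.sum_univ_succ] at hrho
  simp only [Fin.succ_zero_eq_one, Fin.succ_one_eq_two] at hrho
  have hG : upperG a (z 2) = Real.exp (-a * (1 - ‖z 2‖ ^ 2)) := by
    unfold upperG
    rw [indicator_of_mem]
    simpa using h2lt
  have hE : ∏ j : Fin m, upperE a (z j.succ.succ.succ) =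
      Real.exp (-a * ∑ j : Fin m, ‖z j.succ.succ.succ‖ ^ 2) := by
    rw [Finset.mul_sum, Real.exp_sum]
    refine Finset.prod_congr rfl fun j _ => ?_
    unfold upperE
    rw [Real.rpow_zero, one_mul, Real.rpow_two]
  have hu : (‖z 2‖ ^ c) ^ 2 ≤ Real.exp (-a * (1 - ‖z 2‖ ^ 2)) * Real.exp (-a * (1 - ‖z 2‖ ^ 2)) := by
    have h1 : (‖z 2‖ ^ c) ^ 2 = (‖z 2‖ ^ 2) ^ c := by rw [← pow_mul, ← pow_mul, mul_comm]
    have h2 : ‖z 2‖ ^ 2 ≤ Real.exp (‖z 2‖ ^ 2 - 1) := by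
      have := Real.add_one_le_exp (‖z 2‖ ^ 2 - 1)
      linarith
    have h3 : Real.exp (-a * (1 - ‖z 2‖ ^ 2)) * Real.exp (-a * (1 - ‖z 2‖ ^ 2)) =
        Real.exp (‖z 2‖ ^ 2 - 1) ^ c := by
      rw [← Real.exp_add, ← Real.exp_nat_mul, hc]
      congr 1
      ring
    rw [h1, h3]
    exact pow_le_pow_left₀ (by positivity) h2 c
  have hP : Real.exp (-a * (1 - ‖z 2‖ ^ 2)) ≤
      Real.exp (-a * (‖z 0‖ ^ 4 * ‖z 1‖ ^ 2 + ‖z 0‖ ^ 8 + ‖z 1‖ ^ 8)) *
        Real.exp (-a * ∑ j : Fin m, ‖z j.succ.succ.succ‖ ^ 2) := by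
    rw [← Real.exp_add, Real.exp_le_exp, ← mul_add]
    have : ‖z 0‖ ^ 4 * ‖z 1‖ ^ 2 + ‖z 0‖ ^ 8 + ‖z 1‖ ^ 8 +
        ∑ j : Fin m, ‖z j.succ.succ.succ‖ ^ 2 ≤ 1 - ‖z 2‖ ^ 2 := by linarith
    nlinarith
  have htwo := upper_two ha hε hε1 (z 0) (z 1) hz1
  rw [hG, hE]
  calc (‖z 0‖ * ‖z 2‖ ^ c) ^ 2 = ‖z 0‖ ^ 2 * (‖z 2‖ ^ c) ^ 2 := by ring
    _ ≤ ‖z 0‖ ^ 2 * (Real.exp (-a * (1 - ‖z 2‖ ^ 2)) *
          (Real.exp (-a * (‖z 0‖ ^ 4 * ‖z 1‖ ^ 2 + ‖z 0‖ ^ 8 + ‖z 1‖ ^ 8)) *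
        Real.exp (-a * ∑ j : Fin m, ‖z j.succ.succ.succ‖ ^ 2))) := by
        refine mul_le_mul_of_nonneg_left (hu.trans ?_) (by positivity)
        exact mul_le_mul_of_nonneg_left hP (Real.exp_pos _).le
    _ = (‖z 0‖ ^ 2 * Real.exp (-a * (‖z 0‖ ^ 4 * ‖z 1‖ ^ 2 + ‖z 0‖ ^ 8 + ‖z 1‖ ^ 8))) *
          (Real.exp (-a * (1 - ‖z 2‖ ^ 2)) *
            Real.exp (-a * ∑ j : Fin m, ‖z j.succ.succ.succ‖ ^ 2)) := by ring
    _ ≤ (a ^ (-(1 - ε)) * (upperA (-2 + 4 * ε) a (z 0) * upperA (-2 + 2 * ε) a (z 1))) *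
          (Real.exp (-a * (1 - ‖z 2‖ ^ 2)) *
            Real.exp (-a * ∑ j : Fin m, ‖z j.succ.succ.succ‖ ^ 2)) :=
        mul_le_mul_of_nonneg_right htwo (by positivity)
    _ = _ := by ring

theorem upperF_integrable (m : ℕ) {a ε : ℝ} (ha : 0 < a) (hε : 0 < ε)
    (j : Fin (m + 3)) : Integrable (upperF m ε a j) := by
  refine Fin.cases ?_ (fun i => Fin.cases ?_ (fun k => Fin.cases ?_ (fun l => ?_) k) i) j
  · exact upper_integrable (by norm_num) (by linarith) ha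
  · exact upper_integrable (by norm_num) (by linarith) ha
  · exact upperG_integrable a
  · exact upper_integrable (by norm_num) (by norm_num) ha

theorem upperF_nonneg (m : ℕ) (ε a : ℝ) (j : Fin (m + 3)) (w : ℂ) : 0 ≤ upperF m ε a j w := by
  refine Fin.cases ?_ (fun i => Fin.cases ?_ (fun k => Fin.cases ?_ (fun l => ?_) k) i) j
  · exact upperA_nonneg _ _ _
  · exact upperA_nonneg _ _ _
  · exact upperG_nonneg _ _
  · exact upperE_nonneg _ _

theorem upper_integralA {a q : ℝ} (ha : 0 < a) (hq : -2 < q) :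
    ∫ w, upperA q a w = (2 * Real.pi / 8 * Real.Gamma ((q + 2) / 8)) * a ^ (-(q + 2) / 8) := by
  unfold upperA
  rw [Complex.integral_rpow_mul_exp_neg_mul_rpow (by norm_num) hq ha]
  ring

theorem upper_integralE {a : ℝ} (ha : 0 < a) : ∫ w, upperE a w = Real.pi * a ^ (-1 : ℝ) := by
  unfold upperE
  rw [Complex.integral_rpow_mul_exp_neg_mul_rpow (by norm_num) (by norm_num) ha]
  norm_num

theorem upper_integralF (m : ℕ) (ε a : ℝ) :
    ∫ z : Fin (m + 3) → ℂ, ∏ j, upperF m ε a j (z j) =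
      (∫ w, upperA (-2 + 4 * ε) a w) * ((∫ w, upperA (-2 + 2 * ε) a w) *
        ((∫ w, upperG a w) * (∫ w, upperE a w) ^ m)) := by
  have h0 : upperF m ε a 0 = upperA (-2 + 4 * ε) a := rfl
  have h1 : upperF m ε a (Fin.succ 0) = upperA (-2 + 2 * ε) a := rfl
  have h2 : upperF m ε a (Fin.succ (Fin.succ 0)) = upperG a := rfl
  have h3 : ∀ j : Fin m, upperF m ε a j.succ.succ.succ = upperE a := fun _ => rfl
  rw [integral_fintype_prod_volume_eq_prod (fun j => upperF m ε a j), Fin.prod_univ_succ,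
    Fin.prod_univ_succ, Fin.prod_univ_succ, h0, h1, h2]
  simp only [h3, Finset.prod_const, Finset.card_univ, Fintype.card_fin]

/-- On `Omega m`: `‖z 2‖^(2c) ≤ exp (-c (1 - ‖z 2‖²)) ≤ exp (-(c/2) (1 - ‖z 2‖²)) *
exp (-(c/2) (P (z 0, z 1) + ∑_{j ≥ 3} ‖z j‖²))`, because `1 - ‖z 2‖² > P + ∑_{j≥3} ‖z j‖²`, and
`‖z 2‖ < 1`. With `exp (-x) ≤ x^{-(1-ε)}` for `x = (c/2) ‖z 0‖⁴ ‖z 1‖²` the integrand is bounded by
a product of functions of one variable, whose integrals are Gamma integrals. Total exponent: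
`-(1-ε) - ε/2 - ε/4 - 1 - m = -(m+2) + ε/4`. -/
theorem upper_bound (m : ℕ) (ε : ℝ) (hε : 0 < ε) (hε1 : ε < 1) :
    ∃ K : ℝ, 0 < K ∧ ∀ c : ℕ, 1 ≤ c →
      ∫⁻ z in Omega m, ENNReal.ofReal (‖mono m c z‖ ^ 2)
        ≤ ENNReal.ofReal (K * (c : ℝ) ^ (-((m : ℝ) + 2) + ε / 4)) := by
  have hpi := Real.pi_pos
  have hΓ1 : 0 < Real.Gamma ((-2 + 4 * ε + 2) / 8) := Real.Gamma_pos_of_pos (by linarith)
  have hΓ2 : 0 < Real.Gamma ((-2 + 2 * ε + 2) / 8) := Real.Gamma_pos_of_pos (by linarith)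
  set K1 := 2 * Real.pi / 8 * Real.Gamma ((-2 + 4 * ε + 2) / 8) with hK1
  set K2 := 2 * Real.pi / 8 * Real.Gamma ((-2 + 2 * ε + 2) / 8) with hK2
  have hK1pos : 0 < K1 := by positivity
  have hK2pos : 0 < K2 := by positivity
  set s : ℝ := -((m : ℝ) + 2) + ε / 4 with hs
  refine ⟨K1 * K2 * Real.pi * Real.pi ^ m * (2⁻¹ : ℝ) ^ s, by positivity, fun c hc => ?_⟩
  have hcpos : (0 : ℝ) < c := by exact_mod_cast hc
  set a : ℝ := c / 2 with hadef
  have ha : 0 < a := by positivity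
  have hca : (c : ℝ) = 2 * a := by rw [hadef]; ring
  have hae : ∀ᵐ z : Fin (m + 3) → ℂ, z 1 ≠ 0 := by
    rw [volume_pi]
    exact Measure.ae_eval_ne (μ := fun _ : Fin (m + 3) => (volume : Measure ℂ)) 1 0
  have hint : Integrable (fun z : Fin (m + 3) → ℂ => a ^ (-(1 - ε)) * ∏ j, upperF m ε a j (z j)) := by
    refine Integrable.const_mul ?_ _
    rw [volume_pi]
    exact Integrable.fintype_prod_dep fun j => upperF_integrable m ha hε j
  have hnn : ∀ z : Fin (m + 3) → ℂ, 0 ≤ a ^ (-(1 - ε)) * ∏ j, upperF m ε a j (z j) := fun z =>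
    mul_nonneg (Real.rpow_nonneg ha.le _) (Finset.prod_nonneg fun j _ => upperF_nonneg m ε a j _)
  calc ∫⁻ z in Omega m, ENNReal.ofReal (‖mono m c z‖ ^ 2)
      ≤ ∫⁻ z in Omega m, ENNReal.ofReal (a ^ (-(1 - ε)) * ∏ j, upperF m ε a j (z j)) := by
        refine lintegral_mono_ae ?_
        rw [ae_restrict_iff' (measurableSet_Omega m)]
        filter_upwards [hae] with z hz1 hz
        exact ENNReal.ofReal_le_ofReal (upper_pointwise ha hε hε1 hca hz hz1)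
    _ ≤ ∫⁻ z : Fin (m + 3) → ℂ, ENNReal.ofReal (a ^ (-(1 - ε)) * ∏ j, upperF m ε a j (z j)) :=
        setLIntegral_le_lintegral _ _
    _ = ENNReal.ofReal (∫ z : Fin (m + 3) → ℂ, a ^ (-(1 - ε)) * ∏ j, upperF m ε a j (z j)) :=
        (ofReal_integral_eq_lintegral_ofReal hint (Eventually.of_forall hnn)).symm
    _ ≤ _ := by
        refine ENNReal.ofReal_le_ofReal ?_
        rw [integral_const_mul, upper_integralF, upper_integralA ha (by linarith),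
          upper_integralA ha (by linarith), upper_integralE ha, ← hK1, ← hK2]
        have hG := upperG_integral ha
        have e1 : a ^ (-(1 - ε)) * a ^ (-(-2 + 4 * ε + 2) / 8) * a ^ (-(-2 + 2 * ε + 2) / 8) *
            (a ^ (-1 : ℝ) * (a ^ (-1 : ℝ)) ^ m) = a ^ s := by
          rw [← Real.rpow_mul_natCast ha.le, ← Real.rpow_add ha, ← Real.rpow_add ha,
            ← Real.rpow_add ha, ← Real.rpow_add ha, hs]
          congr 1
          ring
        have e2 : a ^ s = (2⁻¹ : ℝ) ^ s * (c : ℝ) ^ s := by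
          rw [← Real.mul_rpow (by norm_num) hcpos.le, hadef]
          congr 1
          ring
        have e3 : Real.pi / a = Real.pi * a ^ (-1 : ℝ) := by
          rw [Real.rpow_neg_one, div_eq_mul_inv]
        rw [e3] at hG
        have p1 := Real.rpow_pos_of_pos ha (-(1 - ε))
        have p2 := Real.rpow_pos_of_pos ha (-(-2 + 4 * ε + 2) / 8)
        have p3 := Real.rpow_pos_of_pos ha (-(-2 + 2 * ε + 2) / 8)
        have p4 := Real.rpow_pos_of_pos ha (-1 : ℝ)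
        calc a ^ (-(1 - ε)) * (K1 * a ^ (-(-2 + 4 * ε + 2) / 8) *
              (K2 * a ^ (-(-2 + 2 * ε + 2) / 8) *
                ((∫ w, upperG a w) * (Real.pi * a ^ (-1 : ℝ)) ^ m)))
            ≤ a ^ (-(1 - ε)) * (K1 * a ^ (-(-2 + 4 * ε + 2) / 8) *
              (K2 * a ^ (-(-2 + 2 * ε + 2) / 8) *
                ((Real.pi * a ^ (-1 : ℝ)) * (Real.pi * a ^ (-1 : ℝ)) ^ m))) := by gcongr
          _ = K1 * K2 * Real.pi * Real.pi ^ m * (a ^ (-(1 - ε)) * a ^ (-(-2 + 4 * ε + 2) / 8) *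
                a ^ (-(-2 + 2 * ε + 2) / 8) * (a ^ (-1 : ℝ) * (a ^ (-1 : ℝ)) ^ m)) := by
              rw [mul_pow]; ring
          _ = K1 * K2 * Real.pi * Real.pi ^ m * (2⁻¹ : ℝ) ^ s * (c : ℝ) ^ s := by
              rw [e1, e2]; ring

end Pool.MPf12e57
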