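import Pool.Agent.H.MP_f12e57_an.MainA
import Pool.Agent.H.MP_f12e57_an.Upper
import Pool.Agent.H.MP_f12e57_an.Lower

/-!
The norm ratios of the monomials are unbounded; unboundedness of the Bergman projection.
-/

open MeasureTheory Set Filter Topology
open scoped ENNReal NNReal ContDiff ComplexConjugate

namespace Pool.MPf12e57

theorem amt_upper (m : ℕ) (ε : ℝ) (hε : 0 < ε) (hε1 : ε < 1) :
    ∃ K : ℝ, 0 < K ∧ ∀ c : ℕ, 1 ≤ c → amt m c 2 ≤ K * (c : ℝ) ^ (-((m : ℝ) + 2) + ε / 4) := by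
  obtain ⟨K, hK, h⟩ := upper_bound m ε hε hε1
  refine ⟨K, hK, fun c hc => ?_⟩
  have h1 := h c hc
  have h2 : ∫⁻ z in Omega m, ENNReal.ofReal (‖mono m c z‖ ^ 2) = ENNReal.ofReal (amt m c 2) := by
    rw [← lintegral_amt m c (by norm_num : (0 : ℝ) ≤ 2)]
    simp only [Real.rpow_two]
  rw [h2] at h1
  exact (ENNReal.ofReal_le_ofReal_iff (by positivity)).1 h1

theorem amt_far (m : ℕ) (s : ℝ) (hs : 0 < s) :
    ∃ k : ℝ, 0 < k ∧ ∀ c : ℕ, 1 ≤ c →
      k * (c : ℝ) ^ (-((m : ℝ) + 2) - (s - 2) / 8) ≤ amt m c s := by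
  obtain ⟨k, hk, h⟩ := lower_far m s hs
  refine ⟨k, hk, fun c hc => ?_⟩
  have h1 := h c hc
  rw [lintegral_amt m c hs.le] at h1
  exact (ENNReal.ofReal_le_ofReal_iff (amt_nonneg _ _ _)).1 h1

theorem amt_core (m : ℕ) (s : ℝ) (hs : 0 < s) :
    ∃ k : ℝ, 0 < k ∧ ∀ c : ℕ, 1 ≤ c →
      k * (c : ℝ) ^ (-((m : ℝ) + 2) - 3 * (s - 2) / 16) ≤ amt m c s := by
  obtain ⟨k, hk, h⟩ := lower_core m s hs
  refine ⟨k, hk, fun c hc => ?_⟩
  have h1 := h c hc
  rw [lintegral_amt m c hs.le] at h1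
  exact (ENNReal.ofReal_le_ofReal_iff (amt_nonneg _ _ _)).1 h1

theorem amt_pos (m : ℕ) {s : ℝ} (hs : 0 < s) {c : ℕ} (hc : 1 ≤ c) : 0 < amt m c s := by
  obtain ⟨k, hk, h⟩ := amt_far m s hs
  have hc' : (0 : ℝ) < c := by exact_mod_cast hc
  exact lt_of_lt_of_le (by positivity) (h c hc)

theorem ratio_unbounded (m : ℕ) {p q : ℝ} (hpq : p.HolderConjugate q) (hp : 2 < p) :
    ¬ ∃ C : ℝ, ∀ c : ℕ, 1 ≤ c →
      amt m c p ^ (1 / p) * amt m c q ^ (1 / q) ≤ C * amt m c 2 := by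
  rintro ⟨C, hC⟩
  have hp0 : 0 < p := by linarith
  have hq0 : 0 < q := hpq.symm.pos
  have hinv : 1 / p + 1 / q = 1 := by
    have := hpq.inv_add_inv_eq_one
    simpa [one_div] using this
  have h2p : 0 < 1 - 2 / p := by
    rw [sub_pos, div_lt_one hp0]; exact hp
  have h2p' : 1 - 2 / p < 1 := by
    have : 0 < 2 / p := by positivity
    linarith
  obtain ⟨K, hK, hKc⟩ := amt_upper m ((1 - 2 / p) / 8) (by linarith) (by linarith)
  obtain ⟨k1, hk1, h1⟩ := amt_far m p hp0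
  obtain ⟨k2, hk2, h2⟩ := amt_core m q hq0
  set d : ℝ := (1 - 2 / p) / 32 with hd
  have hd0 : 0 < d := by rw [hd]; linarith
  have key : ∀ c : ℕ, 1 ≤ c → k1 ^ (1 / p) * k2 ^ (1 / q) * (c : ℝ) ^ d ≤ |C| * K := by
    intro c hc
    have hc' : (0 : ℝ) < c := by exact_mod_cast hc
    have a1 : (k1 * (c : ℝ) ^ (-((m : ℝ) + 2) - (p - 2) / 8)) ^ (1 / p) ≤ amt m c p ^ (1 / p) :=
      Real.rpow_le_rpow (by positivity) (h1 c hc) (by positivity)
    have a2 : (k2 * (c : ℝ) ^ (-((m : ℝ) + 2) - 3 * (q - 2) / 16)) ^ (1 / q)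
        ≤ amt m c q ^ (1 / q) :=
      Real.rpow_le_rpow (by positivity) (h2 c hc) (by positivity)
    have a3 : (k1 * (c : ℝ) ^ (-((m : ℝ) + 2) - (p - 2) / 8)) ^ (1 / p)
        * (k2 * (c : ℝ) ^ (-((m : ℝ) + 2) - 3 * (q - 2) / 16)) ^ (1 / q)
        ≤ |C| * (K * (c : ℝ) ^ (-((m : ℝ) + 2) + (1 - 2 / p) / 8 / 4)) := by
      calc _ ≤ amt m c p ^ (1 / p) * amt m c q ^ (1 / q) :=
            mul_le_mul a1 a2 (by positivity) (Real.rpow_nonneg (amt_nonneg _ _ _) _)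
        _ ≤ C * amt m c 2 := hC c hc
        _ ≤ |C| * amt m c 2 := mul_le_mul_of_nonneg_right (le_abs_self C) (amt_nonneg _ _ _)
        _ ≤ _ := mul_le_mul_of_nonneg_left (hKc c hc) (abs_nonneg C)
    rw [Real.mul_rpow hk1.le (by positivity), Real.mul_rpow hk2.le (by positivity),
      ← Real.rpow_mul hc'.le, ← Real.rpow_mul hc'.le] at a3
    have hq' : 1 / q = 1 - 1 / p := by linarith
    have e0 : (-((m : ℝ) + 2) - (p - 2) / 8) * (1 / p)
        + (-((m : ℝ) + 2) - 3 * (q - 2) / 16) * (1 / q)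
        = (-((m : ℝ) + 2) + (1 - 2 / p) / 8 / 4) + d := by
      have b1 : (p - 2) / 8 * (1 / p) = (1 - 2 / p) / 8 := by field_simp
      have b2 : 3 * (q - 2) / 16 * (1 / q) = 3 * (1 - 2 / q) / 16 := by field_simp
      have b3 : 2 / q = 2 - 2 / p := by
        have : 2 / q = 2 * (1 / q) := by ring
        rw [this, hq']; ring
      calc (-((m : ℝ) + 2) - (p - 2) / 8) * (1 / p)
            + (-((m : ℝ) + 2) - 3 * (q - 2) / 16) * (1 / q)
          = -((m : ℝ) + 2) * (1 / p + 1 / q) - (p - 2) / 8 * (1 / p)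
            - 3 * (q - 2) / 16 * (1 / q) := by ring
        _ = -((m : ℝ) + 2) - (1 - 2 / p) / 8 - 3 * (1 - (2 - 2 / p)) / 16 := by
            rw [hinv, b1, b2, b3, mul_one]
        _ = _ := by rw [hd]; ring
    have a4 : k1 ^ (1 / p) * k2 ^ (1 / q) * (c : ℝ) ^ ((-((m : ℝ) + 2) + (1 - 2 / p) / 8 / 4) + d)
        ≤ |C| * (K * (c : ℝ) ^ (-((m : ℝ) + 2) + (1 - 2 / p) / 8 / 4)) := by
      rw [← e0, Real.rpow_add hc']
      calc _ = k1 ^ (1 / p) * (c : ℝ) ^ ((-((m : ℝ) + 2) - (p - 2) / 8) * (1 / p))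
          * (k2 ^ (1 / q) * (c : ℝ) ^ ((-((m : ℝ) + 2) - 3 * (q - 2) / 16) * (1 / q))) := by ring
        _ ≤ _ := a3
    rw [Real.rpow_add hc'] at a4
    have h5 : 0 < (c : ℝ) ^ (-((m : ℝ) + 2) + (1 - 2 / p) / 8 / 4) := Real.rpow_pos_of_pos hc' _
    refine le_of_mul_le_mul_left ?_ h5
    calc _ = k1 ^ (1 / p) * k2 ^ (1 / q)
          * ((c : ℝ) ^ (-((m : ℝ) + 2) + (1 - 2 / p) / 8 / 4) * (c : ℝ) ^ d) := by ring
      _ ≤ _ := a4
      _ = _ := by ring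
  have hk : 0 < k1 ^ (1 / p) * k2 ^ (1 / q) := by positivity
  have ht : Tendsto (fun c : ℕ => (c : ℝ) ^ d) atTop atTop :=
    (tendsto_rpow_atTop hd0).comp tendsto_natCast_atTop_atTop
  obtain ⟨c, hc1, hc2⟩ := ((ht.eventually_gt_atTop (|C| * K / (k1 ^ (1 / p) * k2 ^ (1 / q)))).and
    (eventually_ge_atTop 1)).exists
  have := key c hc2
  rw [div_lt_iff₀ hk] at hc1
  linarith [mul_comm ((c : ℝ) ^ d) (k1 ^ (1 / p) * k2 ^ (1 / q))]

/-- The Bergman projection of `Omega m` is not bounded on `L^p` for any `p ∈ (1, ∞)`, `p ≠ 2`. -/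
theorem not_bounded (m : ℕ) (p : ℝ) (hp : 1 < p) (hp2 : p ≠ 2) :
    ¬ BoundedOnLp (Omega m) (ENNReal.ofReal p) := by
  intro h
  have hpq : p.HolderConjugate (p / (p - 1)) :=
    (Real.holderConjugate_iff_eq_conjExponent hp).2 rfl
  have hq : 1 < p / (p - 1) := hpq.symm.lt
  obtain ⟨C, hC⟩ := ratio_of_bounded m hpq h (fun c hc => amt_pos m (by norm_num) hc)
    (fun c hc => amt_pos m (by linarith) hc)
  rcases lt_or_gt_of_ne hp2 with hlt | hgt
  · have hq2 : 2 < p / (p - 1) := by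
      rw [lt_div_iff₀ (by linarith)]; linarith
    exact ratio_unbounded m hpq.symm hq2 ⟨C, fun c hc => by
      rw [mul_comm]; exact hC c hc⟩
  · exact ratio_unbounded m hpq hgt ⟨C, hC⟩

/-- The Bergman projection is bounded on `L²`. -/
theorem bounded_two {n : ℕ} (Ω : Set (Fin n → ℂ)) : BoundedOnLp Ω (ENNReal.ofReal 2) := by
  refine ⟨1, fun f _ => ?_⟩
  have h2 : ENNReal.ofReal 2 = 2 := by simp
  rw [h2, ENNReal.coe_one, one_mul, ← Lp.enorm_def, ← Lp.enorm_def]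
  have h := (bergmanSpace Ω).topologicalClosure.norm_starProjection_apply_le f
  exact enorm_le_iff_norm_le.2 h

theorem lpInterval_Omega (m : ℕ) : lpInterval (Omega m) = {2} := by
  ext p
  simp only [lpInterval, mem_ofPred_eq, mem_singleton_iff]
  constructor
  · rintro ⟨h1, h2⟩
    by_contra hne
    exact not_bounded m p h1 hne h2
  · rintro rfl
    exact ⟨by norm_num, bounded_two _⟩

end Pool.MPf12e57
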