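import Pool.Agent.H.MP_f12e57_an.Def

/-!
The domain is pseudoconvex.
-/

open MeasureTheory Set Filter Topology
open scoped ENNReal NNReal ContDiff

namespace Pool.MPf12e57

/-- Sub-mean value inequality for the squared modulus of an entire function. -/
theorem psc_mean (g : ℂ → ℂ) (hg : Differentiable ℂ g) :
    2 * Real.pi * ‖g 0‖ ^ 2 ≤
      ∫ t in (0 : ℝ)..(2 * Real.pi), ‖g (Complex.exp (t * Complex.I))‖ ^ 2 := by
  have hpi : 0 < Real.pi := Real.pi_pos
  have hcont : Continuous fun t : ℝ => g (Complex.exp (t * Complex.I)) := by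
    have := hg.continuous
    fun_prop
  have hmv : Real.circleAverage g 0 1 = g 0 :=
    hg.diffContOnCl.circleAverage
  have h1 : ∫ t in (0 : ℝ)..(2 * Real.pi), g (Complex.exp (t * Complex.I)) =
      (2 * Real.pi : ℝ) • g 0 := by
    rw [← hmv, Real.circleAverage_def, smul_smul, mul_inv_cancel₀ (by positivity), one_smul]
    congr 1
    funext t
    simp [circleMap]
  have h2 : 2 * Real.pi * ‖g 0‖ ≤
      ∫ t in (0 : ℝ)..(2 * Real.pi), ‖g (Complex.exp (t * Complex.I))‖ := by
    have h3 := intervalIntegral.norm_integral_le_integral_norm (μ := volume)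
      (f := fun t : ℝ => g (Complex.exp (t * Complex.I))) (a := 0) (b := 2 * Real.pi)
      (by positivity)
    rw [h1, norm_smul, Real.norm_of_nonneg (by positivity)] at h3
    exact h3
  have hn : Continuous fun t : ℝ => ‖g (Complex.exp (t * Complex.I))‖ := hcont.norm
  have h4 : ∫ t in (0 : ℝ)..(2 * Real.pi),
      (2 * ‖g 0‖ * ‖g (Complex.exp (t * Complex.I))‖ - ‖g 0‖ ^ 2) ≤
      ∫ t in (0 : ℝ)..(2 * Real.pi), ‖g (Complex.exp (t * Complex.I))‖ ^ 2 := by
    apply intervalIntegral.integral_mono (by positivity)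
    · exact ((continuous_const.mul hn).sub continuous_const).intervalIntegrable _ _
    · exact (hn.pow 2).intervalIntegrable _ _
    · intro t
      show 2 * ‖g 0‖ * ‖g (Complex.exp (t * Complex.I))‖ - ‖g 0‖ ^ 2 ≤
        ‖g (Complex.exp (t * Complex.I))‖ ^ 2
      nlinarith [sq_nonneg (‖g (Complex.exp (t * Complex.I))‖ - ‖g 0‖)]
  have h6 : ∫ t in (0 : ℝ)..(2 * Real.pi),
      (2 * ‖g 0‖ * ‖g (Complex.exp (t * Complex.I))‖ - ‖g 0‖ ^ 2) =
      2 * ‖g 0‖ * (∫ t in (0 : ℝ)..(2 * Real.pi), ‖g (Complex.exp (t * Complex.I))‖) -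
        2 * Real.pi * ‖g 0‖ ^ 2 := by
    rw [intervalIntegral.integral_sub, intervalIntegral.integral_const_mul,
      intervalIntegral.integral_const, smul_eq_mul, sub_zero]
    · exact (continuous_const.mul hn).intervalIntegrable _ _
    · exact continuous_const.intervalIntegrable _ _
  rw [h6] at h4
  have h5 := mul_le_mul_of_nonneg_left h2 (by positivity : 0 ≤ 2 * ‖g 0‖)
  nlinarith

theorem psc_int5 {f1 f2 f3 f4 : ℝ → ℝ} (h1 : Continuous f1) (h2 : Continuous f2)
    (h3 : Continuous f3) (h4 : Continuous f4) :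
    ∫ t in (0 : ℝ)..(2 * Real.pi), (f1 t + f2 t + f3 t + f4 t - 1) =
      (∫ t in (0 : ℝ)..(2 * Real.pi), f1 t) + (∫ t in (0 : ℝ)..(2 * Real.pi), f2 t) +
      (∫ t in (0 : ℝ)..(2 * Real.pi), f3 t) + (∫ t in (0 : ℝ)..(2 * Real.pi), f4 t) -
      2 * Real.pi := by
  rw [intervalIntegral.integral_sub, intervalIntegral.integral_add,
    intervalIntegral.integral_add, intervalIntegral.integral_add,
    intervalIntegral.integral_const, smul_eq_mul, mul_one, sub_zero]
  · exact h1.intervalIntegrable _ _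
  · exact h2.intervalIntegrable _ _
  · exact (h1.add h2).intervalIntegrable _ _
  · exact h3.intervalIntegrable _ _
  · exact ((h1.add h2).add h3).intervalIntegrable _ _
  · exact h4.intervalIntegrable _ _
  · exact (((h1.add h2).add h3).add h4).intervalIntegrable _ _
  · exact continuous_const.intervalIntegrable _ _

/-- `rho m` has the sub-mean value property. -/
theorem psc_rho (m : ℕ) (a b : Fin (m + 3) → ℂ) :
    2 * Real.pi * rho m a ≤
      ∫ t in (0 : ℝ)..(2 * Real.pi), rho m (a + Complex.exp (t * Complex.I) • b) := by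
  have hc : ∀ j, Differentiable ℂ fun l : ℂ => a j + l * b j := by intro j; fun_prop
  have k1 := psc_mean (fun l => (a 0 + l * b 0) ^ 2 * (a 1 + l * b 1)) (by fun_prop)
  have k2 := psc_mean (fun l => (a 0 + l * b 0) ^ 4) (by fun_prop)
  have k3 := psc_mean (fun l => (a 1 + l * b 1) ^ 4) (by fun_prop)
  have k4 : ∀ j : Fin (m + 1), _ := fun j =>
    psc_mean (fun l => a j.succ.succ + l * b j.succ.succ) (by fun_prop)
  simp only [zero_mul, add_zero] at k1 k2 k3 k4
  have c1 : Continuous fun t : ℝ => ‖(a 0 + Complex.exp (t * Complex.I) * b 0) ^ 2 *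
      (a 1 + Complex.exp (t * Complex.I) * b 1)‖ ^ 2 := by fun_prop
  have c2 : Continuous fun t : ℝ => ‖(a 0 + Complex.exp (t * Complex.I) * b 0) ^ 4‖ ^ 2 := by
    fun_prop
  have c3 : Continuous fun t : ℝ => ‖(a 1 + Complex.exp (t * Complex.I) * b 1) ^ 4‖ ^ 2 := by
    fun_prop
  have c4 : ∀ j : Fin (m + 1), Continuous fun t : ℝ =>
      ‖a j.succ.succ + Complex.exp (t * Complex.I) * b j.succ.succ‖ ^ 2 := by
    intro j; fun_prop
  have c5 : Continuous fun t : ℝ => ∑ j : Fin (m + 1),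
      ‖a j.succ.succ + Complex.exp (t * Complex.I) * b j.succ.succ‖ ^ 2 :=
    continuous_finsetSum _ fun j _ => c4 j
  have hr : ∀ t : ℝ, rho m (a + Complex.exp (t * Complex.I) • b) =
      ‖(a 0 + Complex.exp (t * Complex.I) * b 0) ^ 2 *
        (a 1 + Complex.exp (t * Complex.I) * b 1)‖ ^ 2 +
      ‖(a 0 + Complex.exp (t * Complex.I) * b 0) ^ 4‖ ^ 2 +
      ‖(a 1 + Complex.exp (t * Complex.I) * b 1) ^ 4‖ ^ 2 +
      (∑ j : Fin (m + 1),
        ‖a j.succ.succ + Complex.exp (t * Complex.I) * b j.succ.succ‖ ^ 2) - 1 := by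
    intro t
    unfold rho
    simp only [Pi.add_apply, Pi.smul_apply, smul_eq_mul, norm_mul, norm_pow]
    ring
  have ha : rho m a = ‖a 0 ^ 2 * a 1‖ ^ 2 + ‖a 0 ^ 4‖ ^ 2 + ‖a 1 ^ 4‖ ^ 2 +
      (∑ j : Fin (m + 1), ‖a j.succ.succ‖ ^ 2) - 1 := by
    unfold rho
    simp only [norm_mul, norm_pow]
    ring
  simp_rw [hr]
  rw [psc_int5 c1 c2 c3 c5,
    intervalIntegral.integral_finsetSum (fun j _ => (c4 j).intervalIntegrable _ _), ha]
  have k5 : ∑ j : Fin (m + 1), 2 * Real.pi * ‖a j.succ.succ‖ ^ 2 ≤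
      ∑ j : Fin (m + 1), ∫ t in (0 : ℝ)..(2 * Real.pi),
        ‖a j.succ.succ + Complex.exp (t * Complex.I) * b j.succ.succ‖ ^ 2 :=
    Finset.sum_le_sum fun j _ => k4 j
  rw [← Finset.mul_sum] at k5
  nlinarith

/-- Exhaustion function `φ z = 1 / (1 - u z)` with `u = rho m + 1`; here
`u z = ‖z 0 ^ 2 * z 1‖^2 + ‖z 0 ^ 4‖^2 + ‖z 1 ^ 4‖^2 + ∑ ‖z j‖^2`, a finite sum of squares of
norms of holomorphic functions. For holomorphic `h` one has (mean value property on circles)
`h a = (2π)⁻¹ ∫ h (a + e^{it} b)`, so `‖h a‖^2 ≤ (2π)⁻¹ ∫ ‖h (a + e^{it} b)‖^2` (Cauchy-Schwarz or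
`0 ≤ ∫ ‖h (a + e^{it} b) - h a‖^2`), hence `u a ≤ mean u`. Then with `f x = 1 / (1 - x)`:
tangent line inequality `f x ≥ f x₀ + f' x₀ (x - x₀)` for `x < 1`, `x₀ = u a < 1`, `f' x₀ > 0`,
gives `mean (f ∘ u) ≥ f (u a) + f' (u a) (mean u - u a) ≥ f (u a)`.
Compact sublevel sets: `{z ∈ Ω, φ z ≤ c}` is `∅` for `c ≤ 0`, else `{z | u z ≤ 1 - 1/c}`, which is
closed and bounded. -/
theorem isPseudoconvex_Omega (m : ℕ) : IsPseudoconvex (Omega m) := by
  have hpi : 0 < Real.pi := Real.pi_pos
  refine ⟨fun z => (-rho m z)⁻¹, ⟨?_, ?_⟩, ?_⟩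
  · refine ContinuousOn.inv₀ (continuous_rho m).neg.continuousOn ?_
    intro z hz
    have : rho m z < 0 := hz
    exact (neg_pos.2 this).ne'
  · intro a b hab
    have ha : rho m a < 0 := by
      have h0 := hab 0 (by simp)
      rw [zero_smul, add_zero] at h0
      exact h0
    have hw : ∀ t : ℝ, rho m (a + Complex.exp (t * Complex.I) • b) < 0 := by
      intro t
      exact hab _ (by rw [Complex.norm_exp_ofReal_mul_I])
    have hcw : Continuous fun t : ℝ => rho m (a + Complex.exp (t * Complex.I) • b) := by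
      have := continuous_rho m
      fun_prop
    have hci : Continuous fun t : ℝ => (-rho m (a + Complex.exp (t * Complex.I) • b))⁻¹ :=
      hcw.neg.inv₀ fun t => (neg_pos.2 (hw t)).ne'
    set r0 : ℝ := -rho m a with hr0
    have hr0p : 0 < r0 := neg_pos.2 ha
    -- tangent line
    have htan : ∀ t : ℝ, r0⁻¹ + (rho m (a + Complex.exp (t * Complex.I) • b) + r0) * (r0⁻¹ ^ 2)
        ≤ (-rho m (a + Complex.exp (t * Complex.I) • b))⁻¹ := by
      intro t
      have hr : 0 < -rho m (a + Complex.exp (t * Complex.I) • b) := neg_pos.2 (hw t)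
      generalize rho m (a + Complex.exp (t * Complex.I) • b) = x at hr
      have hx : 0 < -x := hr
      have e : (-x)⁻¹ - (r0⁻¹ + (x + r0) * (r0⁻¹ ^ 2)) = (r0 + x) ^ 2 * ((-x)⁻¹ * r0⁻¹ ^ 2) := by
        have : x ≠ 0 := by rintro rfl; simp at hx
        field_simp
        ring
      have : 0 ≤ (r0 + x) ^ 2 * ((-x)⁻¹ * r0⁻¹ ^ 2) := by positivity
      linarith
    have hint : ∫ t in (0 : ℝ)..(2 * Real.pi),
        (r0⁻¹ + (rho m (a + Complex.exp (t * Complex.I) • b) + r0) * (r0⁻¹ ^ 2)) ≤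
        ∫ t in (0 : ℝ)..(2 * Real.pi), (-rho m (a + Complex.exp (t * Complex.I) • b))⁻¹ := by
      apply intervalIntegral.integral_mono (by positivity)
      · exact (continuous_const.add ((hcw.add continuous_const).mul
          continuous_const)).intervalIntegrable _ _
      · exact hci.intervalIntegrable _ _
      · exact htan
    have hint2 : ∫ t in (0 : ℝ)..(2 * Real.pi),
        (r0⁻¹ + (rho m (a + Complex.exp (t * Complex.I) • b) + r0) * (r0⁻¹ ^ 2)) =
        2 * Real.pi * r0⁻¹ + ((∫ t in (0 : ℝ)..(2 * Real.pi),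
          rho m (a + Complex.exp (t * Complex.I) • b)) + 2 * Real.pi * r0) * (r0⁻¹ ^ 2) := by
      rw [intervalIntegral.integral_add, intervalIntegral.integral_mul_const,
        intervalIntegral.integral_add, intervalIntegral.integral_const,
        intervalIntegral.integral_const, smul_eq_mul, smul_eq_mul, sub_zero]
      · exact hcw.intervalIntegrable _ _
      · exact continuous_const.intervalIntegrable _ _
      · exact continuous_const.intervalIntegrable _ _
      · exact ((hcw.add continuous_const).mul continuous_const).intervalIntegrable _ _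
    rw [hint2] at hint
    have hsub := psc_rho m a b
    have hge : 2 * Real.pi * r0⁻¹ ≤
        ∫ t in (0 : ℝ)..(2 * Real.pi), (-rho m (a + Complex.exp (t * Complex.I) • b))⁻¹ := by
      refine le_trans ?_ hint
      have h1 : 0 ≤ (∫ t in (0 : ℝ)..(2 * Real.pi),
          rho m (a + Complex.exp (t * Complex.I) • b)) + 2 * Real.pi * r0 := by
        rw [hr0]; linarith
      have h2 : 0 ≤ ((∫ t in (0 : ℝ)..(2 * Real.pi),
          rho m (a + Complex.exp (t * Complex.I) • b)) + 2 * Real.pi * r0) * (r0⁻¹ ^ 2) :=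
        mul_nonneg h1 (by positivity)
      linarith
    show r0⁻¹ ≤ (2 * Real.pi)⁻¹ *
      ∫ t in (0 : ℝ)..(2 * Real.pi), (-rho m (a + Complex.exp (t * Complex.I) • b))⁻¹
    rw [← div_eq_inv_mul, le_div_iff₀ (by positivity), mul_comm]
    exact hge
  · intro c
    by_cases hc : 0 < c
    · have e : {z | z ∈ Omega m ∧ (-rho m z)⁻¹ ≤ c} = {z | rho m z ≤ -c⁻¹} := by
        ext z
        constructor
        · rintro ⟨h1, h2⟩
          have h3 : 0 < -rho m z := neg_pos.2 h1
          have h4 : c⁻¹ ≤ -rho m z := (inv_le_comm₀ h3 hc).1 h2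
          show rho m z ≤ -c⁻¹
          linarith
        · intro h
          have h' : rho m z ≤ -c⁻¹ := h
          have hci : 0 < c⁻¹ := inv_pos.2 hc
          have h3 : 0 < -rho m z := by linarith
          exact ⟨neg_pos.1 h3, (inv_le_comm₀ h3 hc).2 (by linarith)⟩
      rw [e]
      refine Metric.isCompact_of_isClosed_isBounded
        (isClosed_le (continuous_rho m) continuous_const)
        ((isBounded_Omega m).subset ?_)
      intro z hz
      have h' : rho m z ≤ -c⁻¹ := hz
      have hci : 0 < c⁻¹ := inv_pos.2 hc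
      show rho m z < 0
      linarith
    · have e : {z | z ∈ Omega m ∧ (-rho m z)⁻¹ ≤ c} = ∅ := by
        ext z
        simp only [mem_ofPred_eq, mem_empty_iff_false, iff_false, not_and, not_le]
        intro h1
        have h3 : 0 < -rho m z := neg_pos.2 h1
        have : 0 < (-rho m z)⁻¹ := inv_pos.2 h3
        linarith
      rw [e]
      exact isCompact_empty

end Pool.MPf12e57
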