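import Pool.Agent.H.MP_f12e57_an.Geo
import Pool.Agent.H.MP_f12e57_an.Psc
import Pool.Agent.H.MP_f12e57_an.FType
import Pool.Agent.H.MP_f12e57_an.Bridge
import Pool.Agent.H.MP_f12e57_an.MainB

/-!
Assembly: a smooth bounded pseudoconvex domain of finite type in `ℂⁿ`, `n ≥ 3`, with
`I_Ω = {2}`.
-/

open MeasureTheory Set Filter Topology
open scoped ENNReal NNReal ContDiff ComplexConjugate

namespace Pool.MPf12e57

theorem LpInterval_Omega (m : ℕ) : LpInterval (Omega m) = {2} := by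
  have h := lpInterval_Omega m
  ext p
  have hp := Set.ext_iff.1 h p
  simp only [lpInterval, LpInterval, mem_ofPred_eq] at hp ⊢
  rw [Bridge_bounded (isOpen_Omega m)]
  exact hp

theorem main (n : ℕ) (hn : 3 ≤ n) :
    ∃ Ω : Set (Fin n → ℂ), IsOpen Ω ∧ IsConnected Ω ∧ Bornology.IsBounded Ω ∧
      IsPseudoconvex Ω ∧
      (∃ ρ : (Fin n → ℂ) → ℝ, IsDefiningFunction ρ Ω ∧ ∀ p ∈ frontier Ω, TypeAtMost ρ p 8) ∧
      (∀ f : (Fin n → ℂ) → ℂ, MemLp f 2 (volume.restrict Ω) →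
        ∃ g, IsBergmanProjection Ω f g ∧ ∀ g', IsBergmanProjection Ω f g' → EqOn g' g Ω) ∧
      LpInterval Ω = {2} := by
  obtain ⟨m, rfl⟩ := Nat.exists_eq_add_of_le' hn
  refine ⟨Omega m, isOpen_Omega m, isConnected_Omega m, isBounded_Omega m,
    isPseudoconvex_Omega m, ⟨rho m, isDefining_rho m, fun p hp => ?_⟩,
    fun f hf => ?_, LpInterval_Omega m⟩
  · exact typeAtMost_rho m p ((isDefining_rho m).2.2 p hp).1
  · obtain ⟨g, hg, _⟩ := Bridge_exists (isOpen_Omega m) hf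
    exact ⟨g, hg, fun g' hg' => Bridge_unique (isOpen_Omega m) hf hg hg'⟩

end Pool.MPf12e57
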