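import Pool.Agent.H.MP_f12e57_an.Torus

/-!
The `L^p` boundedness of the Bergman projection of `Omega m` bounds the norm ratios of monomials.
-/

open MeasureTheory Set Filter Topology
open scoped ENNReal NNReal ContDiff ComplexConjugate

namespace Pool.MPf12e57

/-- The integral of the `s`-th power of the monomial. -/
noncomputable def amt (m c : ℕ) (s : ℝ) : ℝ := ∫ z in Omega m, ‖mono m c z‖ ^ s

instance MainA_fin (m : ℕ) : IsFiniteMeasure (volume.restrict (Omega m)) :=
  ⟨by rw [Measure.restrict_apply_univ]; exact volume_Omega_lt_top m⟩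

theorem norm_mono_le {m : ℕ} (c : ℕ) {z : Fin (m + 3) → ℂ} (hz : z ∈ Omega m) :
    ‖mono m c z‖ ≤ 1 := by
  rw [norm_mono]
  exact mul_le_one₀ (norm_lt_one_of_mem hz 0).le (by positivity)
    (pow_le_one₀ (norm_nonneg _) (norm_lt_one_of_mem hz 2).le)

theorem measurable_norm_mono (m c : ℕ) : Measurable (fun z => ‖mono m c z‖) :=
  (continuous_mono m c).norm.measurable

theorem integrable_amt (m c : ℕ) {s : ℝ} (hs : 0 ≤ s) :
    Integrable (fun z => ‖mono m c z‖ ^ s) (volume.restrict (Omega m)) := by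
  refine Integrable.of_bound ((measurable_norm_mono m c).pow_const s).aestronglyMeasurable 1 ?_
  filter_upwards [ae_restrict_mem (measurableSet_Omega m)] with z hz
  rw [Real.norm_eq_abs, abs_of_nonneg (by positivity)]
  exact Real.rpow_le_one (norm_nonneg _) (norm_mono_le c hz) hs

theorem amt_nonneg (m c : ℕ) (s : ℝ) : 0 ≤ amt m c s :=
  integral_nonneg fun z => by positivity

theorem lintegral_amt (m c : ℕ) {s : ℝ} (hs : 0 ≤ s) :
    ∫⁻ z in Omega m, ENNReal.ofReal (‖mono m c z‖ ^ s) = ENNReal.ofReal (amt m c s) :=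
  (ofReal_integral_eq_lintegral_ofReal (integrable_amt m c hs)
    (Eventually.of_forall fun z => by positivity)).symm

/-- The test function `e |e|^{q-2}`. -/
noncomputable def tf (m c : ℕ) (q : ℝ) (z : Fin (m + 3) → ℂ) : ℂ :=
  ((‖mono m c z‖ ^ (q - 2) : ℝ) : ℂ) * mono m c z

theorem norm_tf (m c : ℕ) {q : ℝ} (hq : 1 < q) (z : Fin (m + 3) → ℂ) :
    ‖tf m c q z‖ = ‖mono m c z‖ ^ (q - 1) := by
  unfold tf
  rw [norm_mul, Complex.norm_real, Real.norm_eq_abs, abs_of_nonneg (by positivity)]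
  rcases (norm_nonneg (mono m c z)).eq_or_lt with h | h
  · rw [← h, mul_zero, Real.zero_rpow (by linarith)]
  · rw [← Real.rpow_add_one h.ne']
    congr 1; ring

theorem tf_mul_conj (m c : ℕ) {q : ℝ} (hq : 1 < q) (z : Fin (m + 3) → ℂ) :
    tf m c q z * conj (mono m c z) = ((‖mono m c z‖ ^ q : ℝ) : ℂ) := by
  unfold tf
  rw [mul_assoc, Complex.mul_conj, Complex.normSq_eq_norm_sq, ← Complex.ofReal_mul]
  congr 1
  rcases (norm_nonneg (mono m c z)).eq_or_lt with h | h
  · rw [← h, Real.zero_rpow (by linarith : q ≠ 0)]; simp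
  · rw [← Real.rpow_natCast, ← Real.rpow_add h]
    congr 1; push_cast; ring

theorem measurable_tf (m c : ℕ) (q : ℝ) : Measurable (tf m c q) := by
  unfold tf
  exact (Complex.measurable_ofReal.comp ((measurable_norm_mono m c).pow_const _)).mul
    (continuous_mono m c).measurable

theorem norm_tf_le {m : ℕ} (c : ℕ) {q : ℝ} (hq : 1 < q) {z : Fin (m + 3) → ℂ}
    (hz : z ∈ Omega m) : ‖tf m c q z‖ ≤ 1 := by
  rw [norm_tf m c hq]
  exact Real.rpow_le_one (norm_nonneg _) (norm_mono_le c hz) (by linarith)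

theorem memLp_tf (m c : ℕ) {q : ℝ} (hq : 1 < q) (p : ℝ≥0∞) :
    MemLp (tf m c q) p (volume.restrict (Omega m)) :=
  MemLp.of_bound (measurable_tf m c q).aestronglyMeasurable 1 (by
    filter_upwards [ae_restrict_mem (measurableSet_Omega m)] with z hz using norm_tf_le c hq hz)

theorem memLp_mono (m c : ℕ) (p : ℝ≥0∞) :
    MemLp (mono m c) p (volume.restrict (Omega m)) :=
  MemLp.of_bound (continuous_mono m c).measurable.aestronglyMeasurable 1 (by
    filter_upwards [ae_restrict_mem (measurableSet_Omega m)] with z hz using norm_mono_le c hz)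

theorem mono_act (m c : ℕ) (u : Fin (m + 3) → ℂ) (z : Fin (m + 3) → ℂ) :
    mono m c (fun j => u j * z j) = (∏ j, u j ^ alpha m c j) * mono m c z := by
  rw [← prod_alpha, ← prod_alpha, ← Finset.prod_mul_distrib]
  simp only [mul_pow]

theorem norm_mono_act (m c : ℕ) {u : Fin (m + 3) → ℂ} (hu : ∀ j, ‖u j‖ = 1)
    (z : Fin (m + 3) → ℂ) : ‖mono m c (fun j => u j * z j)‖ = ‖mono m c z‖ := by
  rw [mono_act, norm_mul, norm_prod]
  simp [norm_pow, hu]

/-- The Bergman projection of the test function. -/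
theorem proj_tf (m c : ℕ) {q : ℝ} (hq : 1 < q) (h2 : 0 < amt m c 2) :
    bergmanProjection (Omega m) ((memLp_tf m c hq 2).toLp (tf m c q))
      = ((amt m c q / amt m c 2 : ℝ) : ℂ) • (memLp_mono m c 2).toLp (mono m c) := by
  set l : ℝ := amt m c q / amt m c 2 with hl
  refine Submodule.eq_starProjection_of_mem_orthogonal ?_ ?_
  · refine Submodule.le_topologicalClosure _ (Submodule.smul_mem _ _ ?_)
    exact ⟨mono m c, (differentiable_mono m c).differentiableOn, MemLp.coeFn_toLp _⟩
  · rw [Submodule.orthogonal_closure, Submodule.mem_orthogonal]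
    rintro w ⟨g, hg, hwg⟩
    have hg2 : MemLp g 2 (volume.restrict (Omega m)) := (Lp.memLp w).ae_eq hwg
    have key : ∫ z in Omega m, (tf m c q z - l * mono m c z) * conj (g z) = 0 := by
      refine torus_orth (isOpen_Omega m) (volume_Omega_lt_top m)
        (fun z hz w hw => Omega_reinhardt hz hw) (alpha m c)
        (fun z => tf m c q z - l * mono m c z) ?_ ⟨1 + |l|, ?_⟩ ?_ ?_ g hg hg2
      · exact (measurable_tf m c q).sub (measurable_const.mul (continuous_mono m c).measurable)
      · intro z hz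
        refine (norm_sub_le _ _).trans (add_le_add (norm_tf_le c hq hz) ?_)
        rw [norm_mul, Complex.norm_real, Real.norm_eq_abs]
        exact mul_le_of_le_one_right (abs_nonneg _) (norm_mono_le c hz)
      · intro u hu z
        simp only [tf]
        rw [norm_mono_act m c hu, mono_act]
        ring
      · have e1 : ∀ z : Fin (m + 3) → ℂ, (tf m c q z - l * mono m c z) *
            conj (∏ j, z j ^ alpha m c j)
            = ((‖mono m c z‖ ^ q - l * ‖mono m c z‖ ^ (2 : ℝ) : ℝ) : ℂ) := by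
          intro z
          rw [prod_alpha, sub_mul, tf_mul_conj m c hq, mul_assoc, Complex.mul_conj,
            Complex.normSq_eq_norm_sq, Real.rpow_two]
          push_cast; ring
        simp only [e1]
        rw [integral_complex_ofReal, integral_sub (integrable_amt m c (by linarith))
          ((integrable_amt m c (by norm_num)).const_mul l), integral_const_mul]
        have : amt m c q - l * amt m c 2 = 0 := by
          rw [hl]; field_simp; ring
        unfold amt at this
        rw [this]; simp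
    rw [L2.inner_def, ← key]
    refine integral_congr_ae ?_
    filter_upwards [hwg, Lp.coeFn_sub ((memLp_tf m c hq 2).toLp (tf m c q))
      ((l : ℂ) • (memLp_mono m c 2).toLp (mono m c)),
      Lp.coeFn_smul (l : ℂ) ((memLp_mono m c 2).toLp (mono m c)),
      (memLp_tf m c hq 2).coeFn_toLp, (memLp_mono m c 2).coeFn_toLp] with z h1 h2 h3 h4 h5
    rw [h2, RCLike.inner_apply, h1, Pi.sub_apply, h3, Pi.smul_apply, h4, h5, smul_eq_mul]

theorem ratio_of_bounded (m : ℕ) {p q : ℝ} (hpq : p.HolderConjugate q)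
    (h : BoundedOnLp (Omega m) (ENNReal.ofReal p)) (hpos : ∀ c : ℕ, 1 ≤ c → 0 < amt m c 2)
    (hposq : ∀ c : ℕ, 1 ≤ c → 0 < amt m c q) :
    ∃ C : ℝ, ∀ c : ℕ, 1 ≤ c →
      amt m c p ^ (1 / p) * amt m c q ^ (1 / q) ≤ C * amt m c 2 := by
  obtain ⟨C, hC⟩ := h
  refine ⟨C, fun c hc => ?_⟩
  have hp0 : 0 < p := hpq.pos
  have hp1 : 1 < p := hpq.lt
  have hq1 : 1 < q := hpq.symm.lt
  have h2 := hpos c hc
  have hq := hposq c hc
  have hpne : ENNReal.ofReal p ≠ 0 := by simpa using hp0
  have hptop : ENNReal.ofReal p ≠ ⊤ := ENNReal.ofReal_ne_top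
  have hpr : (ENNReal.ofReal p).toReal = p := ENNReal.toReal_ofReal hp0.le
  have hl : 0 < amt m c q / amt m c 2 := div_pos hq h2
  have hmem : MemLp ((memLp_tf m c hq1 2).toLp (tf m c q)) (ENNReal.ofReal p)
      (volume.restrict (Omega m)) :=
    (memLp_tf m c hq1 _).ae_eq (memLp_tf m c hq1 2).coeFn_toLp.symm
  have hb := hC _ hmem
  rw [proj_tf m c hq1 h2] at hb
  have e1 : eLpNorm (((amt m c q / amt m c 2 : ℝ) : ℂ) • (memLp_mono m c 2).toLp (mono m c))
      (ENNReal.ofReal p) (volume.restrict (Omega m))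
      = ENNReal.ofReal (amt m c q / amt m c 2 * amt m c p ^ (1 / p)) := by
    have h3 : ((((amt m c q / amt m c 2 : ℝ) : ℂ) • (memLp_mono m c 2).toLp (mono m c) :
        Lp ℂ 2 (volume.restrict (Omega m))) : (Fin (m + 3) → ℂ) → ℂ)
        =ᵐ[volume.restrict (Omega m)]
        fun z => ((amt m c q / amt m c 2 : ℝ) : ℂ) * mono m c z := by
      filter_upwards [Lp.coeFn_smul ((amt m c q / amt m c 2 : ℝ) : ℂ)
        ((memLp_mono m c 2).toLp (mono m c)), (memLp_mono m c 2).coeFn_toLp] with z h4 h5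
      rw [h4, Pi.smul_apply, h5, smul_eq_mul]
    rw [eLpNorm_congr_ae h3, MemLp.eLpNorm_eq_integral_rpow_norm hpne hptop
      ((memLp_mono m c _).const_mul _), hpr]
    congr 1
    have h6 : ∀ z : Fin (m + 3) → ℂ, ‖((amt m c q / amt m c 2 : ℝ) : ℂ) * mono m c z‖ ^ p
        = (amt m c q / amt m c 2) ^ p * ‖mono m c z‖ ^ p := by
      intro z
      rw [norm_mul, Complex.norm_real, Real.norm_eq_abs, abs_of_pos hl,
        Real.mul_rpow hl.le (norm_nonneg _)]
    simp only [h6]
    rw [integral_const_mul]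
    change ((amt m c q / amt m c 2) ^ p * amt m c p) ^ p⁻¹ = _
    rw [Real.mul_rpow (by positivity) (amt_nonneg _ _ _), Real.rpow_rpow_inv hl.le hp0.ne', one_div]
  have e2 : eLpNorm ((memLp_tf m c hq1 2).toLp (tf m c q)) (ENNReal.ofReal p)
      (volume.restrict (Omega m)) = ENNReal.ofReal (amt m c q ^ (1 / p)) := by
    rw [eLpNorm_congr_ae (memLp_tf m c hq1 2).coeFn_toLp,
      MemLp.eLpNorm_eq_integral_rpow_norm hpne hptop (memLp_tf m c hq1 _), hpr]
    congr 1
    have h6 : ∀ z : Fin (m + 3) → ℂ, ‖tf m c q z‖ ^ p = ‖mono m c z‖ ^ q := by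
      intro z
      rw [norm_tf m c hq1, ← Real.rpow_mul (norm_nonneg _)]
      congr 1
      have := hpq.mul_eq_add
      linarith
    simp only [h6]
    rw [one_div]
    rfl
  rw [e1, e2, ← ENNReal.ofReal_coe_nnreal, ← ENNReal.ofReal_mul (NNReal.coe_nonneg C),
    ENNReal.ofReal_le_ofReal_iff (by positivity)] at hb
  -- hb : aq / a2 * ap^(1/p) ≤ C * aq^(1/p)
  have h7 : amt m c q = amt m c q ^ (1 / p) * amt m c q ^ (1 / q) := by
    rw [← Real.rpow_add hq]
    have := hpq.inv_add_inv_eq_one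
    rw [one_div, one_div, this, Real.rpow_one]
  have h8 : 0 < amt m c q ^ (1 / p) := Real.rpow_pos_of_pos hq _
  have h9 : amt m c q * amt m c p ^ (1 / p) ≤ C * amt m c q ^ (1 / p) * amt m c 2 := by
    have := mul_le_mul_of_nonneg_right hb h2.le
    rw [div_mul_eq_mul_div, div_mul_cancel₀ _ h2.ne'] at this
    exact this
  have h10 : amt m c q ^ (1 / p) * (amt m c p ^ (1 / p) * amt m c q ^ (1 / q))
      ≤ amt m c q ^ (1 / p) * (C * amt m c 2) := by
    calc amt m c q ^ (1 / p) * (amt m c p ^ (1 / p) * amt m c q ^ (1 / q))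
        = (amt m c q ^ (1 / p) * amt m c q ^ (1 / q)) * amt m c p ^ (1 / p) := by ring
      _ = amt m c q * amt m c p ^ (1 / p) := by rw [← h7]
      _ ≤ C * amt m c q ^ (1 / p) * amt m c 2 := h9
      _ = _ := by ring
  exact le_of_mul_le_mul_left h10 h8

end Pool.MPf12e57
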