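import Mathlib

/-!
Definitions used in the statement of MP_f12e57_an (the Bergman projection on smooth pseudoconvex
domains of finite type).
-/

open MeasureTheory Set Filter Topology
open scoped ENNReal NNReal ContDiff ComplexConjugate

namespace Pool.MPf12e57

/-- `g` belongs to the Bergman space `A²(Ω)`: it is holomorphic on `Ω` and square integrable on
`Ω` (Lebesgue measure of `ℂⁿ`). -/
def InBergmanSpace {n : ℕ} (Ω : Set (Fin n → ℂ)) (g : (Fin n → ℂ) → ℂ) : Prop :=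
  DifferentiableOn ℂ g Ω ∧ MemLp g 2 (volume.restrict Ω)

/-- `g` is the Bergman projection of `f`, the orthogonal projection of `f ∈ L²(Ω)` to `A²(Ω)`:
`g ∈ A²(Ω)` and `f - g` is orthogonal to every element of `A²(Ω)`. -/
def IsBergmanProjection {n : ℕ} (Ω : Set (Fin n → ℂ)) (f g : (Fin n → ℂ) → ℂ) : Prop :=
  InBergmanSpace Ω g ∧ ∀ h, InBergmanSpace Ω h → ∫ z in Ω, (f z - g z) * conj (h z) = 0

/-- The Bergman projection extends to a bounded operator of `L^p(Ω)`: there is a constant `C` such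
that `‖B f‖_p ≤ C ‖f‖_p` for all `f ∈ L²(Ω) ∩ L^p(Ω)`. -/
def LpBounded {n : ℕ} (Ω : Set (Fin n → ℂ)) (p : ℝ≥0∞) : Prop :=
  ∃ C : ℝ≥0, ∀ f g : (Fin n → ℂ) → ℂ, MemLp f 2 (volume.restrict Ω) →
    MemLp f p (volume.restrict Ω) → IsBergmanProjection Ω f g →
    eLpNorm g p (volume.restrict Ω) ≤ C * eLpNorm f p (volume.restrict Ω)

/-- The `L^p` mapping interval `I_Ω`. -/
def LpInterval {n : ℕ} (Ω : Set (Fin n → ℂ)) : Set ℝ :=
  {p | 1 < p ∧ LpBounded Ω (ENNReal.ofReal p)}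

/-- A continuous function is plurisubharmonic on `Ω` if it satisfies the sub-mean value inequality
on every closed complex disc contained in `Ω`. -/
def IsPSHOn {n : ℕ} (φ : (Fin n → ℂ) → ℝ) (Ω : Set (Fin n → ℂ)) : Prop :=
  ContinuousOn φ Ω ∧ ∀ a b : Fin n → ℂ, (∀ l : ℂ, ‖l‖ ≤ 1 → a + l • b ∈ Ω) →
    φ a ≤ (2 * Real.pi)⁻¹ * ∫ t in (0 : ℝ)..(2 * Real.pi), φ (a + Complex.exp (t * Complex.I) • b)

/-- `Ω` is pseudoconvex: it has a continuous plurisubharmonic exhaustion function. -/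
def IsPseudoconvex {n : ℕ} (Ω : Set (Fin n → ℂ)) : Prop :=
  ∃ φ : (Fin n → ℂ) → ℝ, IsPSHOn φ Ω ∧ ∀ c : ℝ, IsCompact {z | z ∈ Ω ∧ φ z ≤ c}

/-- `ρ` is a (global, smooth) defining function of `Ω`. -/
def IsDefiningFunction {n : ℕ} (ρ : (Fin n → ℂ) → ℝ) (Ω : Set (Fin n → ℂ)) : Prop :=
  ContDiff ℝ ∞ ρ ∧ Ω = {z | ρ z < 0} ∧ ∀ z ∈ frontier Ω, ρ z = 0 ∧ fderiv ℝ ρ z ≠ 0

/-- The D'Angelo type at `p` of the hypersurface with defining function `ρ` is at most `T`: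
`ν(ρ ∘ γ) ≤ T ν(γ - p)` for every nonconstant holomorphic germ `γ` with `γ 0 = p`, where `ν` is
the order of vanishing at `0`. -/
def TypeAtMost {n : ℕ} (ρ : (Fin n → ℂ) → ℝ) (p : Fin n → ℂ) (T : ℕ) : Prop :=
  ∀ γ : ℂ → (Fin n → ℂ), AnalyticAt ℂ γ 0 → γ 0 = p → (¬ ∀ᶠ ζ in 𝓝 0, γ ζ = p) →
    ∀ k : ℕ, (fun ζ => ρ (γ ζ)) =O[𝓝 0] (fun ζ : ℂ => ‖ζ‖ ^ k) →
      (k : ℕ∞) ≤ T * analyticOrderAt (fun ζ => γ ζ - p) 0

end Pool.MPf12e57
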