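import Pool.Agent.H.MP_f12e57_an.Def

/-!
One variable: the Fourier coefficients of a holomorphic function on circles.
-/

open MeasureTheory Set Filter Topology
open scoped ENNReal NNReal ContDiff ComplexConjugate

namespace Pool.MPf12e57

instance TorA_fact : Fact (0 < 2 * Real.pi) := ⟨Real.two_pi_pos⟩

/-- The circle `ℝ / 2πℤ`. -/
abbrev Ang : Type := AddCircle (2 * Real.pi)

/-- `e θ = exp (i θ)`. -/
noncomputable def e (θ : Ang) : ℂ := (AddCircle.toCircle θ : ℂ)

theorem e_coe (t : ℝ) : e (t : Ang) = Complex.exp (t * Complex.I) := by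
  have h : (2 * Real.pi / (2 * Real.pi)) * t = t := by
    have := Real.two_pi_pos.ne'
    field_simp
  rw [e, AddCircle.toCircle_apply_mk, h, Circle.coe_exp]

theorem e_add (a b : Ang) : e (a + b) = e a * e b := by
  simp [e, AddCircle.toCircle_add]

theorem norm_e (a : Ang) : ‖e a‖ = 1 := by simp [e]

theorem e_ne_zero (a : Ang) : e a ≠ 0 := by
  intro h; have := norm_e a; rw [h] at this; simp at this

theorem continuous_e : Continuous e := by
  unfold e
  exact continuous_subtype_val.comp AddCircle.continuous_toCircle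

theorem conj_e_mul (a : Ang) : conj (e a) * e a = 1 := by
  rw [← Complex.normSq_eq_conj_mul_self, Complex.normSq_eq_norm_sq, norm_e]; simp

theorem conj_e (a : Ang) : conj (e a) = (e a)⁻¹ :=
  eq_inv_of_mul_eq_one_left (conj_e_mul a)

theorem TorA_circle {f : ℂ → ℂ} {R : ℝ} (hR : 0 < R) :
    (∮ z in C(0, R), (z - 0)⁻¹ • f z) = Complex.I * ∫ φ : Ang, f (R * e φ) := by
  rw [← AddCircle.intervalIntegral_preimage (2 * Real.pi) 0, circleIntegral, zero_add,
    ← intervalIntegral.integral_const_mul]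
  refine intervalIntegral.integral_congr fun t _ => ?_
  have h1 : circleMap 0 R t = R * e (t : Ang) := by
    rw [e_coe]; simp [circleMap]
  have h2 : (R : ℂ) * e (t : Ang) ≠ 0 := mul_ne_zero (by exact_mod_cast hR.ne') (e_ne_zero _)
  simp only [deriv_circleMap, smul_eq_mul, sub_zero]
  rw [h1, mul_comm _ Complex.I, mul_assoc, mul_inv_cancel_left₀ h2]

theorem TorA_oneVar {h : ℂ → ℂ} {r R : ℝ} (hr : 0 < r) (hrR : r ≤ R)
    (hc : ContinuousOn h (Metric.closedBall 0 R))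
    (hd : ∀ z ∈ Metric.ball (0 : ℂ) R, DifferentiableAt ℂ h z) (a : ℕ) :
    (r : ℂ) ^ a * ∫ φ : Ang, conj (e φ) ^ a * h (R * e φ)
      = (R : ℂ) ^ a * ∫ φ : Ang, conj (e φ) ^ a * h (r * e φ) := by
  have hR : 0 < R := hr.trans_le hrR
  have hann := Complex.circleIntegral_sub_center_inv_smul_eq_of_differentiable_on_annulus_off_countable
    (c := 0) (r := r) (R := R) hr hrR (f := fun z => h z * (z⁻¹) ^ a) (s := ∅) countable_empty
    (by
      refine (hc.mono sdiff_subset).mul (ContinuousOn.pow (continuousOn_inv₀.mono ?_) a)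
      rintro z ⟨_, hz⟩ (h0 : z = 0)
      rw [h0] at hz
      exact hz (Metric.mem_ball_self hr))
    (by
      rintro z ⟨⟨hz1, hz2⟩, _⟩
      have hz0 : z ≠ 0 := by
        rintro rfl
        exact hz2 (Metric.mem_closedBall_self hr.le)
      exact (hd z hz1).mul ((differentiableAt_inv hz0).pow a))
  rw [TorA_circle hR, TorA_circle hr] at hann
  have hann' := mul_left_cancel₀ Complex.I_ne_zero hann
  have key : ∀ {ρ : ℝ}, 0 < ρ → ∫ φ : Ang, h (ρ * e φ) * ((ρ * e φ)⁻¹) ^ a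
      = ((ρ : ℂ)⁻¹) ^ a * ∫ φ : Ang, conj (e φ) ^ a * h (ρ * e φ) := by
    intro ρ hρ
    rw [← integral_const_mul]
    refine integral_congr_ae (Eventually.of_forall fun φ => ?_)
    simp only [conj_e, mul_inv, mul_pow]
    ring
  rw [key hR, key hr] at hann'
  have hr0 : (r : ℂ) ≠ 0 := by exact_mod_cast hr.ne'
  have hR0 : (R : ℂ) ≠ 0 := by exact_mod_cast hR.ne'
  simp only [inv_pow] at hann'
  field_simp at hann'
  linear_combination hann'

/-- Scaling of the Fourier coefficients, in the form used below. -/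
theorem TorA_scale {h : ℂ → ℂ} {w : ℂ} (hw : w ≠ 0) {s : ℝ} (hs : 0 < s) (hs1 : s ≤ 1)
    (hc : ContinuousOn h (Metric.closedBall 0 ‖w‖))
    (hd : ∀ z ∈ Metric.ball (0 : ℂ) ‖w‖, DifferentiableAt ℂ h z) (a : ℕ) :
    ∫ φ : Ang, conj (e φ) ^ a * h (s * (e φ * w))
      = (s : ℂ) ^ a * ∫ φ : Ang, conj (e φ) ^ a * h (e φ * w) := by
  have hw' : 0 < ‖w‖ := norm_pos_iff.2 hw
  obtain ⟨β, hβ⟩ : ∃ β : Ang, w = ‖w‖ * e β := by
    refine ⟨((Complex.arg w : ℝ) : Ang), ?_⟩
    rw [e_coe, Complex.norm_mul_exp_arg_mul_I]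
  have key : ∀ ρ : ℝ, ∫ φ : Ang, conj (e φ) ^ a * h (ρ * (e φ * e β))
      = e β ^ a * ∫ φ : Ang, conj (e φ) ^ a * h (ρ * e φ) := by
    intro ρ
    rw [← integral_const_mul,
      ← integral_add_right_eq_self (fun φ : Ang => e β ^ a * (conj (e φ) ^ a * h (ρ * e φ))) β]
    refine integral_congr_ae (Eventually.of_forall fun φ => ?_)
    simp only [e_add, map_mul, mul_pow]
    have h1 : conj (e β) ^ a * e β ^ a = 1 := by rw [← mul_pow, conj_e_mul, one_pow]
    linear_combination (-(conj (e φ) ^ a * h (ρ * (e φ * e β)))) * h1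
  have h1 := TorA_oneVar (h := h) (r := s * ‖w‖) (R := ‖w‖) (by positivity)
    (by nlinarith) hc hd a
  have e1 : ∫ φ : Ang, conj (e φ) ^ a * h (s * (e φ * w))
      = e β ^ a * ∫ φ : Ang, conj (e φ) ^ a * h (((s * ‖w‖ : ℝ) : ℂ) * e φ) := by
    rw [← key]
    refine integral_congr_ae (Eventually.of_forall fun φ => ?_)
    simp only
    congr 2
    rw [Complex.ofReal_mul]
    nth_rewrite 1 [hβ]
    ring
  have e2 : ∫ φ : Ang, conj (e φ) ^ a * h (e φ * w)
      = e β ^ a * ∫ φ : Ang, conj (e φ) ^ a * h ((‖w‖ : ℂ) * e φ) := by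
    rw [← key]
    refine integral_congr_ae (Eventually.of_forall fun φ => ?_)
    simp only
    congr 2
    nth_rewrite 1 [hβ]
    ring
  rw [e1, e2]
  have hsw : ((s * ‖w‖ : ℝ) : ℂ) ^ a = (s : ℂ) ^ a * (‖w‖ : ℂ) ^ a := by
    rw [Complex.ofReal_mul, mul_pow]
  rw [hsw] at h1
  have hw0 : (‖w‖ : ℂ) ^ a ≠ 0 := pow_ne_zero _ (by exact_mod_cast hw'.ne')
  have h2 : (‖w‖ : ℂ) ^ a * ((s : ℂ) ^ a * ∫ φ : Ang, conj (e φ) ^ a * h ((‖w‖ : ℂ) * e φ))
      = (‖w‖ : ℂ) ^ a * ∫ φ : Ang, conj (e φ) ^ a * h (((s * ‖w‖ : ℝ) : ℂ) * e φ) := by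
    rw [← h1]; ring
  have h3 := mul_left_cancel₀ hw0 h2
  rw [← h3]
  ring

end Pool.MPf12e57
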