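import Pool.Agent.H.MP_f12e57_an.TorA

/-!
The torus average of a holomorphic function against a character is a multiple of the monomial.
-/

open MeasureTheory Set Filter Topology
open scoped ENNReal NNReal ContDiff ComplexConjugate

namespace Pool.MPf12e57

/-- The action of the torus on `ℂⁿ`. -/
noncomputable def act {n : ℕ} (θ : Fin n → Ang) (z : Fin n → ℂ) : Fin n → ℂ :=
  fun j => e (θ j) * z j

/-- The character `θ ↦ exp (i α·θ)`. -/
noncomputable def chi {n : ℕ} (α : Fin n → ℕ) (θ : Fin n → Ang) : ℂ := ∏ j, e (θ j) ^ α j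

/-- The torus average. -/
noncomputable def avg {n : ℕ} (α : Fin n → ℕ) (g : (Fin n → ℂ) → ℂ) (z : Fin n → ℂ) : ℂ :=
  ∫ θ : Fin n → Ang, conj (chi α θ) * g (act θ z)

variable {n : ℕ} {Ω : Set (Fin n → ℂ)} {α : Fin n → ℕ} {g : (Fin n → ℂ) → ℂ}

theorem act_add (θ φ : Fin n → Ang) (z : Fin n → ℂ) : act (θ + φ) z = act θ (act φ z) := by
  funext j; simp [act, e_add, mul_assoc]

theorem norm_act (θ : Fin n → Ang) (z : Fin n → ℂ) (j : Fin n) : ‖act θ z j‖ = ‖z j‖ := by
  simp [act, norm_e]

theorem chi_add (θ φ : Fin n → Ang) : chi α (θ + φ) = chi α θ * chi α φ := by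
  simp [chi, e_add, mul_pow, Finset.prod_mul_distrib]

theorem norm_chi (θ : Fin n → Ang) : ‖chi α θ‖ = 1 := by
  simp [chi, norm_prod, norm_pow, norm_e]

theorem conj_chi_mul (θ : Fin n → Ang) : conj (chi α θ) * chi α θ = 1 := by
  rw [← Complex.normSq_eq_conj_mul_self, Complex.normSq_eq_norm_sq, norm_chi]; simp

theorem continuous_chi : Continuous (chi (n := n) α) := by
  unfold chi
  exact continuous_finsetProd _ fun j _ => (continuous_e.comp (continuous_apply j)).pow _

theorem continuous_act : Continuous (fun q : (Fin n → Ang) × (Fin n → ℂ) => act q.1 q.2) := by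
  unfold act
  refine continuous_pi fun j => ?_
  exact (continuous_e.comp ((continuous_apply j).comp continuous_fst)).mul
    ((continuous_apply j).comp continuous_snd)

theorem act_mem (hR : ∀ z ∈ Ω, ∀ w : Fin n → ℂ, (∀ j, ‖w j‖ ≤ ‖z j‖) → w ∈ Ω)
    (θ : Fin n → Ang) {z : Fin n → ℂ} (hz : z ∈ Ω) : act θ z ∈ Ω :=
  hR z hz _ fun j => (norm_act θ z j).le

theorem avg_act (φ : Fin n → Ang) (z : Fin n → ℂ) : avg α g (act φ z) = chi α φ * avg α g z := by
  unfold avg
  rw [← integral_const_mul,
    ← integral_add_right_eq_self (fun θ : Fin n → Ang => chi α φ * (conj (chi α θ) * g (act θ z))) φ]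
  refine integral_congr_ae (Eventually.of_forall fun θ => ?_)
  simp only [chi_add, map_mul, act_add]
  have h := conj_chi_mul (α := α) φ
  linear_combination (-(conj (chi α θ) * g (act θ (act φ z)))) * h

theorem TorB_chi_single (θ : Fin n → Ang) (j : Fin n) (φ : Ang) :
    chi α (θ + Pi.single j φ) = chi α θ * e φ ^ α j := by
  rw [chi_add]
  congr 1
  unfold chi
  rw [Finset.prod_eq_single j]
  · simp
  · intro i _ hi
    simp [Pi.single_eq_of_ne hi, e]
  · simp

theorem TorB_act_single (θ : Fin n → Ang) (j : Fin n) (φ : Ang) (z : Fin n → ℂ) (s : ℝ) :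
    act (θ + Pi.single j φ) (Function.update z j (s * z j))
      = Function.update (act θ z) j (s * (e φ * act θ z j)) := by
  funext i
  by_cases hi : i = j
  · subst hi
    simp only [act, Pi.add_apply, Pi.single_eq_same, e_add, Function.update_self]
    ring
  · simp [act, Pi.single_eq_of_ne hi, Function.update_of_ne hi]

theorem TorB_cont (hg : DifferentiableOn ℂ g Ω)
    (hR : ∀ z ∈ Ω, ∀ w : Fin n → ℂ, (∀ j, ‖w j‖ ≤ ‖z j‖) → w ∈ Ω) {z : Fin n → ℂ} (hz : z ∈ Ω)
    (j : Fin n) {s : ℝ} (hs : 0 < s) (hs1 : s ≤ 1) :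
    Continuous (fun q : Ang × (Fin n → Ang) => conj (chi α q.2) * (conj (e q.1) ^ α j *
      g (Function.update (act q.2 z) j (s * (e q.1 * act q.2 z j))))) := by
  have h1 : Continuous (fun q : Ang × (Fin n → Ang) => act q.2 z) :=
    continuous_act.comp (continuous_snd.prodMk continuous_const)
  have h2 : Continuous (fun q : Ang × (Fin n → Ang) =>
      Function.update (act q.2 z) j (s * (e q.1 * act q.2 z j))) := by
    refine h1.update j ?_
    exact continuous_const.mul ((continuous_e.comp continuous_fst).mul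
      ((continuous_apply j).comp h1))
  have h3 : Continuous (fun q : Ang × (Fin n → Ang) =>
      g (Function.update (act q.2 z) j (s * (e q.1 * act q.2 z j)))) := by
    refine hg.continuousOn.comp_continuous h2 fun q => hR z hz _ fun i => ?_
    by_cases hi : i = j
    · subst hi
      simp only [Function.update_self, norm_mul, norm_e, norm_act, one_mul, Complex.norm_real,
        Real.norm_eq_abs, abs_of_pos hs]
      exact mul_le_of_le_one_left (norm_nonneg _) hs1
    · rw [Function.update_of_ne hi, norm_act]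
  exact (Complex.continuous_conj.comp (continuous_chi.comp continuous_snd)).mul
    (((Complex.continuous_conj.comp (continuous_e.comp continuous_fst)).pow _).mul h3)

theorem TorB_avg_update (j : Fin n) {s : ℝ} (z : Fin n → ℂ) :
    (2 * Real.pi : ℂ) * avg α g (Function.update z j (s * z j))
      = ∫ φ : Ang, ∫ θ : Fin n → Ang, conj (chi α θ) * (conj (e φ) ^ α j *
      g (Function.update (act θ z) j (s * (e φ * act θ z j)))) := by
  have h1 : ∀ φ : Ang, ∫ θ : Fin n → Ang, conj (chi α θ) * (conj (e φ) ^ α j *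
      g (Function.update (act θ z) j (s * (e φ * act θ z j))))
      = avg α g (Function.update z j (s * z j)) := by
    intro φ
    unfold avg
    rw [← integral_add_right_eq_self (fun θ : Fin n → Ang => conj (chi α θ) *
      g (act θ (Function.update z j (s * z j)))) (Pi.single j φ)]
    refine integral_congr_ae (Eventually.of_forall fun θ => ?_)
    simp only
    rw [TorB_chi_single, TorB_act_single, map_mul, map_pow]
    ring
  simp only [h1]
  rw [integral_const]
  simp [Measure.real, AddCircle.measure_univ, ENNReal.toReal_ofReal Real.pi_pos.le]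

theorem avg_scale_one (hΩ : IsOpen Ω) (hg : DifferentiableOn ℂ g Ω)
    (hR : ∀ z ∈ Ω, ∀ w : Fin n → ℂ, (∀ j, ‖w j‖ ≤ ‖z j‖) → w ∈ Ω) {z : Fin n → ℂ} (hz : z ∈ Ω)
    (j : Fin n) (hj : z j ≠ 0) {s : ℝ} (hs : 0 < s) (hs1 : s ≤ 1) :
    avg α g (Function.update z j (s * z j)) = (s : ℂ) ^ α j * avg α g z := by
  have hpi : (2 * Real.pi : ℂ) ≠ 0 := by
    exact_mod_cast Real.two_pi_pos.ne'
  have key : ∀ {s : ℝ}, 0 < s → s ≤ 1 →
      (2 * Real.pi : ℂ) * avg α g (Function.update z j (s * z j))
        = ∫ θ : Fin n → Ang, conj (chi α θ) * ∫ φ : Ang, conj (e φ) ^ α j *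
          g (Function.update (act θ z) j (s * (e φ * act θ z j))) := by
    intro s hs hs1
    rw [TorB_avg_update, integral_integral_swap]
    · refine integral_congr_ae (Eventually.of_forall fun θ => ?_)
      simp only
      rw [integral_const_mul]
    · exact (TorB_cont hg hR hz j hs hs1).integrable_of_hasCompactSupport
        (HasCompactSupport.of_compactSpace _)
  have h1 := key (s := 1) one_pos le_rfl
  have h2 := key hs hs1
  have hup : Function.update z j (((1 : ℝ) : ℂ) * z j) = z := by simp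
  rw [hup] at h1
  refine mul_left_cancel₀ hpi ?_
  rw [h2, mul_left_comm, h1, ← integral_const_mul]
  refine integral_congr_ae (Eventually.of_forall fun θ => ?_)
  simp only
  have hw : act θ z j ≠ 0 := mul_ne_zero (e_ne_zero _) hj
  have hmem : ∀ ζ ∈ Metric.closedBall (0 : ℂ) ‖act θ z j‖, Function.update (act θ z) j ζ ∈ Ω := by
    intro ζ hζ
    refine hR z hz _ fun i => ?_
    by_cases hi : i = j
    · subst hi
      rw [Function.update_self, ← norm_act θ z i]
      simpa using hζ
    · rw [Function.update_of_ne hi, norm_act]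
  have hdiff : ∀ ζ ∈ Metric.closedBall (0 : ℂ) ‖act θ z j‖,
      DifferentiableAt ℂ (fun ζ => g (Function.update (act θ z) j ζ)) ζ := by
    intro ζ hζ
    have h3 : DifferentiableAt ℂ g (Function.update (act θ z) j ζ) :=
      (hg _ (hmem ζ hζ)).differentiableAt (hΩ.mem_nhds (hmem ζ hζ))
    exact h3.comp ζ (differentiableAt_pi.2 fun i => by
      by_cases hi : i = j
      · subst hi
        simp only [Function.update_self]
        exact differentiableAt_id
      · simp only [Function.update_of_ne hi]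
        exact differentiableAt_const _)
  have h4 := TorA_scale (h := fun ζ => g (Function.update (act θ z) j ζ)) hw hs hs1
    (fun ζ hζ => (hdiff ζ hζ).continuousAt.continuousWithinAt)
    (fun ζ hζ => hdiff ζ (Metric.ball_subset_closedBall hζ)) (α j)
  rw [h4]
  simp only [Complex.ofReal_one, one_mul]
  ring

theorem avg_scale (hΩ : IsOpen Ω) (hg : DifferentiableOn ℂ g Ω)
    (hR : ∀ z ∈ Ω, ∀ w : Fin n → ℂ, (∀ j, ‖w j‖ ≤ ‖z j‖) → w ∈ Ω) {z : Fin n → ℂ} (hz : z ∈ Ω)
    (hj : ∀ j, z j ≠ 0) {s : Fin n → ℝ} (hs : ∀ j, 0 < s j) (hs1 : ∀ j, s j ≤ 1)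
    (S : Finset (Fin n)) :
    avg α g (fun j => if j ∈ S then s j * z j else z j)
      = (∏ j ∈ S, (s j : ℂ) ^ α j) * avg α g z := by
  induction S using Finset.induction_on with
  | empty => simp
  | insert i S hi ih =>
    set w : Fin n → ℂ := fun j => if j ∈ S then s j * z j else z j with hw
    have hwm : w ∈ Ω := by
      refine hR z hz _ fun j => ?_
      by_cases hjS : j ∈ S
      · simp only [hw, hjS, if_true, norm_mul, Complex.norm_real, Real.norm_eq_abs,
          abs_of_pos (hs j)]
        exact mul_le_of_le_one_left (norm_nonneg _) (hs1 j)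
      · simp [hw, hjS]
    have hwi : w i = z i := by simp [hw, hi]
    have h1 : (fun j => if j ∈ insert i S then (s j : ℂ) * z j else z j)
        = Function.update w i (s i * w i) := by
      funext j
      by_cases hji : j = i
      · subst hji
        simp [hwi]
      · rw [Function.update_of_ne hji]
        simp [hw, hji]
    rw [h1, avg_scale_one hΩ hg hR hwm i (by rw [hwi]; exact hj i) (hs i) (hs1 i), ih,
      Finset.prod_insert hi]
    ring

/-- The torus average is a multiple of the monomial. -/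
theorem avg_const (hΩ : IsOpen Ω) (hg : DifferentiableOn ℂ g Ω)
    (hR : ∀ z ∈ Ω, ∀ w : Fin n → ℂ, (∀ j, ‖w j‖ ≤ ‖z j‖) → w ∈ Ω) {z : Fin n → ℂ} (hz : z ∈ Ω)
    (hj : ∀ j, z j ≠ 0) {ε : ℝ} (hε : 0 < ε) (hε1 : ∀ j, ε ≤ ‖z j‖) :
    avg α g (fun _ => (ε : ℂ)) * ∏ j, z j ^ α j = (∏ j, (ε : ℂ) ^ α j) * avg α g z := by
  have hn : ∀ j, 0 < ‖z j‖ := fun j => norm_pos_iff.2 (hj j)
  choose β hβ using fun j : Fin n => (show ∃ β : Ang, z j = ‖z j‖ * e β from
    ⟨((Complex.arg (z j) : ℝ) : Ang), by rw [e_coe, Complex.norm_mul_exp_arg_mul_I]⟩)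
  set y : Fin n → ℂ := fun j => (‖z j‖ : ℂ) with hy
  have hyz : act β y = z := by
    funext j
    rw [hβ j]
    simp only [act, hy]
    ring
  have hym : y ∈ Ω := hR z hz _ fun j => by simp [hy]
  have hy0 : ∀ j, y j ≠ 0 := fun j => by
    simp only [hy]; exact_mod_cast (hn j).ne'
  have h1 := avg_act (α := α) (g := g) β y
  rw [hyz] at h1
  have h2 := avg_scale (α := α) hΩ hg hR hym hy0 (s := fun j => ε / ‖z j‖)
    (fun j => div_pos hε (hn j)) (fun j => (div_le_one (hn j)).2 (hε1 j)) Finset.univ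
  have h3 : (fun j => if j ∈ (Finset.univ : Finset (Fin n)) then ((ε / ‖z j‖ : ℝ) : ℂ) * y j
      else y j) = fun _ => (ε : ℂ) := by
    funext j
    have := (hn j).ne'
    simp only [Finset.mem_univ, if_true, hy]
    rw [← Complex.ofReal_mul, div_mul_cancel₀ _ this]
  rw [h3] at h2
  rw [h2, h1]
  have h4 : ∏ j, z j ^ α j = (∏ j, (‖z j‖ : ℂ) ^ α j) * chi α β := by
    unfold chi
    rw [← Finset.prod_mul_distrib]
    refine Finset.prod_congr rfl fun j _ => ?_
    rw [← mul_pow, ← hβ j]
  have h5 : (∏ j, ((ε / ‖z j‖ : ℝ) : ℂ) ^ α j) * ∏ j, (‖z j‖ : ℂ) ^ α j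
      = ∏ j, (ε : ℂ) ^ α j := by
    rw [← Finset.prod_mul_distrib]
    refine Finset.prod_congr rfl fun j _ => ?_
    rw [← mul_pow, ← Complex.ofReal_mul, div_mul_cancel₀ _ (hn j).ne']
  rw [h4, ← h5]
  ring

end Pool.MPf12e57
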