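import Pool.Agent.H.MP_f12e57_an.TorB

/-!
Torus averaging: on a complete Reinhardt domain, a bounded function which transforms under the
torus like the monomial `z^α` and is orthogonal to `z^α` is orthogonal to the whole Bergman space.
-/

open MeasureTheory Set Filter Topology
open scoped ENNReal NNReal ContDiff ComplexConjugate

namespace Pool.MPf12e57

theorem Torus_mp {n : ℕ} (θ : Fin n → Ang) :
    MeasurePreserving (act θ) (volume : Measure (Fin n → ℂ)) volume := by
  refine volume_preserving_pi (f := fun j z => e (θ j) * z) fun j => ?_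
  exact (rotation (AddCircle.toCircle (θ j))).measurePreserving

theorem Torus_emb {n : ℕ} (θ : Fin n → Ang) : MeasurableEmbedding (act (n := n) θ) := by
  have hc : ∀ φ : Fin n → Ang, Continuous (act (n := n) φ) := fun φ =>
    continuous_act.comp (continuous_const.prodMk continuous_id)
  have hzero : ∀ z : Fin n → ℂ, act (0 : Fin n → Ang) z = z := by
    intro z; funext j; simp [act, e]
  let E : (Fin n → ℂ) ≃ᵐ (Fin n → ℂ) :=
    { toFun := act θ
      invFun := act (-θ)
      left_inv := fun z => by rw [← act_add, neg_add_cancel, hzero]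
      right_inv := fun z => by rw [← act_add, add_neg_cancel, hzero]
      measurable_toFun := (hc θ).measurable
      measurable_invFun := (hc (-θ)).measurable }
  exact E.measurableEmbedding

theorem Torus_pre {n : ℕ} {Ω : Set (Fin n → ℂ)}
    (hR : ∀ z ∈ Ω, ∀ w : Fin n → ℂ, (∀ j, ‖w j‖ ≤ ‖z j‖) → w ∈ Ω) (θ : Fin n → Ang) :
    act θ ⁻¹' Ω = Ω := by
  ext z
  constructor
  · intro h
    exact hR _ h _ fun j => (norm_act θ z j).ge
  · intro h
    exact act_mem hR θ h

theorem Torus_mpR {n : ℕ} {Ω : Set (Fin n → ℂ)} (hΩ : IsOpen Ω)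
    (hR : ∀ z ∈ Ω, ∀ w : Fin n → ℂ, (∀ j, ‖w j‖ ≤ ‖z j‖) → w ∈ Ω) (θ : Fin n → Ang) :
    MeasurePreserving (act θ) (volume.restrict Ω) (volume.restrict Ω) := by
  have h := (Torus_mp θ).restrict_preimage hΩ.measurableSet
  rwa [Torus_pre hR θ] at h

theorem torus_orth {n : ℕ} {Ω : Set (Fin n → ℂ)} (hΩ : IsOpen Ω) (hfin : volume Ω < ⊤)
    (hR : ∀ z ∈ Ω, ∀ w : Fin n → ℂ, (∀ j, ‖w j‖ ≤ ‖z j‖) → w ∈ Ω) (α : Fin n → ℕ)
    (F : (Fin n → ℂ) → ℂ) (hFm : Measurable F) (hFb : ∃ M : ℝ, ∀ z ∈ Ω, ‖F z‖ ≤ M)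
    (hFt : ∀ u : Fin n → ℂ, (∀ j, ‖u j‖ = 1) → ∀ z, F (fun j => u j * z j)
      = (∏ j, u j ^ α j) * F z)
    (h0 : ∫ z in Ω, F z * conj (∏ j, z j ^ α j) = 0)
    (g : (Fin n → ℂ) → ℂ) (hg : DifferentiableOn ℂ g Ω) (hg2 : MemLp g 2 (volume.restrict Ω)) :
    ∫ z in Ω, F z * conj (g z) = 0 := by
  obtain ⟨M, hM⟩ := hFb
  have : IsFiniteMeasure (volume.restrict Ω) := ⟨by rwa [Measure.restrict_apply_univ]⟩
  have hg1 : Integrable g (volume.restrict Ω) := hg2.integrable (by norm_num)
  -- step 1: invariance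
  have hFact : ∀ (θ : Fin n → Ang) (z : Fin n → ℂ), F (act θ z) = chi α θ * F z := fun θ z =>
    hFt (fun j => e (θ j)) (fun j => norm_e _) z
  have step1 : ∀ θ : Fin n → Ang, ∫ z in Ω, F z * conj (conj (chi α θ) * g (act θ z))
      = ∫ z in Ω, F z * conj (g z) := by
    intro θ
    rw [← (Torus_mpR hΩ hR θ).integral_comp (Torus_emb θ) (fun z => F z * conj (g z))]
    refine integral_congr_ae (Eventually.of_forall fun z => ?_)
    simp only [hFact, map_mul, Complex.conj_conj]
    ring
  -- step 2: integrability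
  have hΦ : MeasurePreserving (fun q : (Fin n → Ang) × (Fin n → ℂ) => (q.1, act q.1 q.2))
      ((volume : Measure (Fin n → Ang)).prod (volume.restrict Ω))
      ((volume : Measure (Fin n → Ang)).prod (volume.restrict Ω)) :=
    (MeasurePreserving.id _).skew_product (g := fun θ z => act θ z) continuous_act.measurable
      (Eventually.of_forall fun θ => (Torus_mpR hΩ hR θ).map_eq)
  have hI1 : Integrable (fun q : (Fin n → Ang) × (Fin n → ℂ) => g (act q.1 q.2))
      ((volume : Measure (Fin n → Ang)).prod (volume.restrict Ω)) := by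
    have h1 : Integrable (fun q : (Fin n → Ang) × (Fin n → ℂ) => g q.2)
      ((volume : Measure (Fin n → Ang)).prod (volume.restrict Ω)) := hg1.comp_snd _
    exact hΦ.integrable_comp_of_integrable h1
  have hI2 : Integrable (fun q : (Fin n → Ang) × (Fin n → ℂ) =>
      F q.2 * conj (conj (chi α q.1) * g (act q.1 q.2)))
      ((volume : Measure (Fin n → Ang)).prod (volume.restrict Ω)) := by
    have h2 : Integrable (fun q : (Fin n → Ang) × (Fin n → ℂ) => conj (g (act q.1 q.2)))
        ((volume : Measure (Fin n → Ang)).prod (volume.restrict Ω)) := by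
      have := (Complex.conjCLE : ℂ →L[ℝ] ℂ).integrable_comp hI1
      exact this
    have h3 : ∀ᵐ q : (Fin n → Ang) × (Fin n → ℂ)
        ∂((volume : Measure (Fin n → Ang)).prod (volume.restrict Ω)), q.2 ∈ Ω :=
      Measure.quasiMeasurePreserving_snd.ae (ae_restrict_mem hΩ.measurableSet)
    have h4 : AEStronglyMeasurable (fun q : (Fin n → Ang) × (Fin n → ℂ) => F q.2 * chi α q.1)
        ((volume : Measure (Fin n → Ang)).prod (volume.restrict Ω)) :=
      ((hFm.comp measurable_snd).mul
        (continuous_chi.measurable.comp measurable_fst)).aestronglyMeasurable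
    have h5 := h2.bdd_mul (c := M) h4 (by
      filter_upwards [h3] with q hq
      rw [norm_mul, norm_chi, mul_one]
      exact hM _ hq)
    refine h5.congr (Eventually.of_forall fun q => ?_)
    simp only [map_mul, Complex.conj_conj]
    ring
  -- step 3: swap
  have step3 : ∫ θ : Fin n → Ang, ∫ z in Ω, F z * conj (conj (chi α θ) * g (act θ z))
      = ∫ z in Ω, F z * conj (avg α g z) := by
    rw [integral_integral_swap (f := fun θ z => F z * conj (conj (chi α θ) * g (act θ z))) hI2]
    refine integral_congr_ae (Eventually.of_forall fun z => ?_)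
    simp only
    rw [integral_const_mul, integral_conj, avg]
  simp only [step1] at step3
  rw [integral_const] at step3
  -- step 4: the average is a multiple of the monomial
  have hae : ∀ᵐ z ∂(volume.restrict Ω : Measure (Fin n → ℂ)), ∀ j, z j ≠ 0 := by
    rw [ae_all_iff]
    intro j
    exact ae_restrict_of_ae (Measure.ae_eval_ne (μ := fun _ : Fin n => (volume : Measure ℂ)) j 0)
  have hzero : ∫ z in Ω, F z * conj (avg α g z) = 0 := by
    by_cases hex : ∃ z0 ∈ Ω, ∀ j, z0 j ≠ 0
    · obtain ⟨z0, hz0, hz0j⟩ := hex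
      have hP0 : ∏ j, z0 j ^ α j ≠ 0 := Finset.prod_ne_zero_iff.2 fun j _ => pow_ne_zero _ (hz0j j)
      have hC : ∀ᵐ z ∂(volume.restrict Ω : Measure (Fin n → ℂ)),
          F z * conj (avg α g z)
            = conj (avg α g z0 / ∏ j, z0 j ^ α j) * (F z * conj (∏ j, z j ^ α j)) := by
        filter_upwards [hae, ae_restrict_mem hΩ.measurableSet] with z hzj hz
        obtain ⟨ε, hε, hε1, hε2⟩ : ∃ ε : ℝ, 0 < ε ∧ (∀ j, ε ≤ ‖z j‖) ∧ ∀ j, ε ≤ ‖z0 j‖ := by
          rcases Nat.eq_zero_or_pos n with hn | hn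
          · subst hn
            exact ⟨1, one_pos, fun j => j.elim0, fun j => j.elim0⟩
          · have : Nonempty (Fin n) := ⟨⟨0, hn⟩⟩
            obtain ⟨i, hi⟩ := Finite.exists_min (fun j => ‖z j‖)
            obtain ⟨k, hk⟩ := Finite.exists_min (fun j => ‖z0 j‖)
            refine ⟨min ‖z i‖ ‖z0 k‖, lt_min (norm_pos_iff.2 (hzj i)) (norm_pos_iff.2 (hz0j k)),
              fun j => (min_le_left _ _).trans (hi j), fun j => (min_le_right _ _).trans (hk j)⟩
        have a1 := avg_const (α := α) hΩ hg hR hz hzj hε hε1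
        have a2 := avg_const (α := α) hΩ hg hR hz0 hz0j hε hε2
        have hE : ∏ j, (ε : ℂ) ^ α j ≠ 0 :=
          Finset.prod_ne_zero_iff.2 fun j _ => pow_ne_zero _ (by exact_mod_cast hε.ne')
        have a3 : avg α g z = (avg α g z0 / ∏ j, z0 j ^ α j) * ∏ j, z j ^ α j := by
          rw [div_mul_eq_mul_div, eq_div_iff hP0]
          refine mul_left_cancel₀ hE ?_
          linear_combination (-(∏ j, z0 j ^ α j)) * a1 + (∏ j, z j ^ α j) * a2
        rw [a3, map_mul]
        ring
      rw [integral_congr_ae hC, integral_const_mul, h0, mul_zero]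
    · have hnull : ∀ᵐ z ∂(volume.restrict Ω : Measure (Fin n → ℂ)), F z * conj (avg α g z) = 0 := by
        filter_upwards [hae, ae_restrict_mem hΩ.measurableSet] with z hzj hz
        exact absurd ⟨z, hz, hzj⟩ hex
      rw [integral_congr_ae (g := fun _ => (0 : ℂ)) hnull, integral_zero]
  rw [hzero] at step3
  have hvol : (volume : Measure (Fin n → Ang)).real univ ≠ 0 := by
    rw [Measure.real, ← Set.pi_univ univ, volume_pi_pi]
    simp only [AddCircle.measure_univ, Finset.prod_const, ENNReal.toReal_pow]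
    rw [ENNReal.toReal_ofReal Real.two_pi_pos.le]
    exact pow_ne_zero _ Real.two_pi_pos.ne'
  exact (smul_eq_zero.1 step3).resolve_left hvol

end Pool.MPf12e57
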